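import Pool.Agent.H94.Five.Exc3
import Pool.Agent.H79.Five.Sem

set_option autoImplicit false
set_option linter.all false
set_option maxRecDepth 10000
set_option exponentiation.threshold 20000

/-! Window counts inside a mask, and interposed fours, by computation. -/

namespace Pool.Agent.H94.Five.M

open Pool.Agent.H79.Five Pool.Agent.H10.Five

/-- digits `0`, `1` -/
def D01 (D : ℕ) : Prop := ∀ n, dg D n = 0 ∨ dg D n = 1

theorem D01.of {D : ℕ} (h : Nat.beq (Nat.lor D ones) ones = true) : D01 D := by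
  intro n
  have h := Nat.eq_of_beq_eq_true h
  change D ||| ones = ones at h
  have h1 : dg D n ||| dg ones n = dg ones n := by rw [← dg_lor, h]
  have h2 : dg ones n = if n < 1024 then 1 else 0 := by
    rw [ones_eq, ← one_mul (rp 1024), dg_mul_rp (by norm_num)]
  have h3 := dg_lt D n
  rw [h2] at h1
  generalize dg D n = v at *
  by_cases hn : n < 1024
  · rw [if_pos hn] at h1
    revert h1
    interval_cases v <;> decide
  · rw [if_neg hn] at h1
    revert h1
    interval_cases v <;> decide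

theorem dg_kmul {D : ℕ} (hD : D01 D) : ∀ k < 8, ∀ n, dg (k * D) n = k * dg D n := by
  intro k
  induction k with
  | zero => intro _ n; simp [dg_zero]
  | succ k ih =>
    intro hk n
    rw [Nat.succ_mul, dg_add, ih (by omega)]
    · ring
    · intro i
      rw [ih (by omega)]
      rcases hD i with h | h <;> rw [h] <;> omega

theorem D01.tb {D : ℕ} (hD : D01 D) (n : ℕ) : D.testBit (6 * n) = decide (dg D n = 1) := by
  have := testBit_dg D n 0 (by norm_num)
  rw [Nat.add_zero] at this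
  rw [← this]
  rcases hD n with h | h <;> rw [h] <;> decide

/-- The position restricted to a mask. -/
def msk (X Z : ℕ) : ℕ := Nat.land X (Nat.mul (nat_lit 7) Z)

theorem msk_dg {X Z n : ℕ} {A U : Finset Cell} (hX : Rep X A U) (hZ : D01 Z) : dg (msk X Z) n = if dg Z n = 1 then dg X n else 0 := by
  change dg (X &&& (7 * Z)) n = _
  rw [dg_land, dg_kmul hZ 7 (by norm_num)]
  have h5 := hX.le5 n
  rcases hZ n with h | h
  · rw [h]; simp
  · rw [h, if_pos rfl]
    generalize dg X n = v at *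
    interval_cases v <;> decide

theorem msk_le {X Z : ℕ} {A U : Finset Cell} (hX : Rep X A U) (hZ : D01 Z) (n : ℕ) : dg (msk X Z) n ≤ 5 := by
  rw [msk_dg hX hZ]
  have := hX.le5 n
  split_ifs <;> omega

theorem msk_cell {X Z : ℕ} {A U : Finset Cell} (hX : Rep X A U) (hZ : D01 Z) {c : Cell} (hc : c ∈ cells Z) (hA : c ∉ A) :
    dg (msk X Z) (ix c) = 4 + if c ∈ U then 1 else 0 := by
  obtain ⟨h1, h2⟩ := mem_cells.1 hc
  rw [hZ.tb, decide_eq_true_eq] at h2
  rw [msk_dg hX hZ, if_pos h2, hX.digc h1 hA]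

/-- The window sums, in general. -/
theorem win_sumG {Y : ℕ} {B : Finset Cell} (h5 : ∀ i, dg Y i ≤ 5) {a d : Cell} (hd : IsDir d)
    (hin : ∀ k : ℕ, k < 5 → Inb (a + (k : ℤ) • d))
    (g : ∀ k : ℕ, k < 5 → dg Y (ix (a + (k : ℤ) • d)) = 4 + if a + (k : ℤ) • d ∈ B then 1 else 0) :
    ∃ δ e, IsDel δ ∧ e < 1024 ∧ 4 * δ ≤ e ∧ dg (Y * pol δ) e = 20 + cnt B a d ∧
      ∀ k : ℕ, k < 5 → ∃ k' < 5, ix (a + (k : ℤ) • d) + k' * δ = e := by
  obtain ⟨δ, e, hδ, he, h4, hk⟩ := win_idx hd hin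
  refine ⟨δ, e, hδ, he, h4, ?_, ?_⟩
  · unfold pol
    rw [dg_win (B := 5) (by norm_num) h5, if_pos (by omega), if_pos (by omega), if_pos (by omega), if_pos h4, cnt_sum]
    rcases hk with hk | hk
    · have i0 := hk 0 (by norm_num)
      have i1 := hk 1 (by norm_num)
      have i2 := hk 2 (by norm_num)
      have i3 := hk 3 (by norm_num)
      have i4 := hk 4 (by norm_num)
      rw [show e = ix (a + ((4 : ℕ) : ℤ) • d) by omega,
        show ix (a + ((4 : ℕ) : ℤ) • d) - δ = ix (a + ((3 : ℕ) : ℤ) • d) by omega,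
        show ix (a + ((4 : ℕ) : ℤ) • d) - 2 * δ = ix (a + ((2 : ℕ) : ℤ) • d) by omega,
        show ix (a + ((4 : ℕ) : ℤ) • d) - 3 * δ = ix (a + ((1 : ℕ) : ℤ) • d) by omega,
        show ix (a + ((4 : ℕ) : ℤ) • d) - 4 * δ = ix (a + ((0 : ℕ) : ℤ) • d) by omega,
        g 0 (by norm_num), g 1 (by norm_num), g 2 (by norm_num), g 3 (by norm_num), g 4 (by norm_num)]
      ring
    · have i0 := hk 0 (by norm_num)
      have i1 := hk 1 (by norm_num)
      have i2 := hk 2 (by norm_num)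
      have i3 := hk 3 (by norm_num)
      have i4 := hk 4 (by norm_num)
      rw [show e = ix (a + ((0 : ℕ) : ℤ) • d) by omega,
        show ix (a + ((0 : ℕ) : ℤ) • d) - δ = ix (a + ((1 : ℕ) : ℤ) • d) by omega,
        show ix (a + ((0 : ℕ) : ℤ) • d) - 2 * δ = ix (a + ((2 : ℕ) : ℤ) • d) by omega,
        show ix (a + ((0 : ℕ) : ℤ) • d) - 3 * δ = ix (a + ((3 : ℕ) : ℤ) • d) by omega,
        show ix (a + ((0 : ℕ) : ℤ) • d) - 4 * δ = ix (a + ((4 : ℕ) : ℤ) • d) by omega,
        g 0 (by norm_num), g 1 (by norm_num), g 2 (by norm_num), g 3 (by norm_num), g 4 (by norm_num)]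
      ring
  · intro k hk5
    rcases hk with hk | hk
    · exact ⟨4 - k, by omega, hk k hk5⟩
    · exact ⟨k, hk5, hk k hk5⟩

/-- No window with sum `22`. -/
def sf2 (Y : ℕ) : Bool :=
  Nat.beq (Nat.land (Nat.lor (Nat.lor (Nat.add (Nat.mul Y pH) c10) (Nat.add (Nat.mul Y pV) c10))
    (Nat.lor (Nat.add (Nat.mul Y pD) c10) (Nat.add (Nat.mul Y pA) c10))) m32) (nat_lit 0)

theorem sf2_spec {X Z : ℕ} {A U : Finset Cell} (hX : Rep X A U) (hZ : D01 Z) (hs : sf2 (msk X Z) = true) {a d : Cell}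
    (hd : IsDir d) (hA : Avo A a d) (hz : ∀ l : ℕ, l < 5 → a + (l : ℤ) • d ∈ cells Z) : cnt U a d ≤ 1 := by
  by_contra hc
  push Not at hc
  have h5 := msk_le hX hZ
  obtain ⟨δ, e, hδ, he, -, hsum, -⟩ := win_sumG h5 hd (fun k hk => (mem_cells.1 (hz k hk)).1)
    (fun k hk => msk_cell hX hZ (hz k hk) (hA k hk))
  have key : dg ((msk X Z * pol δ + c10) &&& m32) e = 32 := by
    rw [dg_land, c10_eq, m32_eq, dg_XPc h5 (by norm_num), dg_mul_rp (by norm_num), if_pos he, if_pos he, hsum,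
      and32 _ (by
        have := dg_XP h5 δ e
        omega), if_pos (by omega)]
  have hz : (msk X Z * pol δ + c10) &&& m32 = 0 := by
    have h1 := Nat.eq_of_beq_eq_true hs
    change (((msk X Z * pH + c10) ||| (msk X Z * pV + c10)) ||| ((msk X Z * pD + c10) ||| (msk X Z * pA + c10))) &&& m32 = 0 at h1
    have h2 : ∀ Y Z : ℕ, (Y ||| Z) &&& m32 = 0 → Y &&& m32 = 0 ∧ Z &&& m32 = 0 := by
      intro Y Z h
      rw [Nat.and_or_distrib_right, Nat.or_eq_zero_iff] at h
      exact h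
    obtain ⟨h3, h4⟩ := h2 _ _ h1
    obtain ⟨h5, h6⟩ := h2 _ _ h3
    obtain ⟨h7, h8⟩ := h2 _ _ h4
    rcases hδ.pol with hp | hp | hp | hp <;> rw [hp]
    exacts [h5, h6, h7, h8]
  rw [hz, dg_zero] at key
  omega

/-- Cells of windows inside the mask with a stone of Second. -/
theorem cel11 {X Z : ℕ} {A U : Finset Cell} (hX : Rep X A U) (hZ : D01 Z) {a d : Cell}
    (hd : IsDir d) (hA : Avo A a d) (hz : ∀ l : ℕ, l < 5 → a + (l : ℤ) • d ∈ cells Z) (h1 : 1 ≤ cnt U a d) {k : ℕ}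
    (hk : k < 5) : a + (k : ℤ) • d ∈ cells (cel (msk X Z) c11) := by
  have h5 := msk_le hX hZ
  have hin : ∀ k : ℕ, k < 5 → Inb (a + (k : ℤ) • d) := fun k hk => (mem_cells.1 (hz k hk)).1
  obtain ⟨δ, e, hδ, he, -, hsum, hidx⟩ := win_sumG h5 hd hin (fun k hk => msk_cell hX hZ (hz k hk) (hA k hk))
  rw [mem_cells, c11_eq]
  refine ⟨hin k hk, ?_⟩
  obtain ⟨k', hk', hke⟩ := hidx k hk
  exact cel_spec h5 (by norm_num) (ix_lt (hin k hk)) hδ (dr_pos h5 (by norm_num) hk' he (by omega) hke)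

theorem cel9 {X : ℕ} {A U : Finset Cell} (hX : Rep X A U) {a d : Cell} (hd : IsDir d) (hA : Avo A a d) (h3 : 3 ≤ cnt U a d)
    {k : ℕ} (hk : k < 5) : a + (k : ℤ) • d ∈ cells (cel X c9) := by
  rw [mem_cells, c9_eq]
  exact cel_win hX (by norm_num) hd hA (by omega) hk

theorem cel10 {X : ℕ} {A U : Finset Cell} (hX : Rep X A U) {a d : Cell} (hd : IsDir d) (hA : Avo A a d) (h2 : 2 ≤ cnt U a d)
    {k : ℕ} (hk : k < 5) : a + (k : ℤ) • d ∈ cells (cel X c10) := by
  rw [mem_cells, c10_eq]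
  exact cel_win hX (by norm_num) hd hA (by omega) hk

/-- Stones of Second. -/
def su (X : ℕ) : ℕ := Nat.land X ones

theorem su_mem {X : ℕ} {A U : Finset Cell} (hX : Rep X A U) {c : Cell} (hc : c ∈ U) : c ∈ cells (su X) := by
  have hi := (hX.inB c hc).inb
  rw [mem_cells]
  refine ⟨hi, ?_⟩
  change (X &&& ones).testBit _ = true
  rw [Nat.testBit_and, ones_tb (ix_lt hi), Bool.and_true]
  have h1 := testBit_dg X (ix c) 0 (by norm_num)
  have hA : c ∉ A := fun h => Finset.disjoint_left.1 hX.dis h hc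
  rw [Nat.add_zero, hX.digc hi hA, if_pos hc] at h1
  rw [← h1]; decide

theorem land0 {M N : ℕ} (h : Nat.beq (Nat.land M N) 0 = true) {c : Cell} (hM : c ∈ cells M) : c ∉ cells N := by
  intro hN
  have h := Nat.eq_of_beq_eq_true h
  change M &&& N = 0 at h
  have h1 : (M &&& N).testBit (6 * ix c) = true := by
    rw [Nat.testBit_and, (mem_cells.1 hM).2, (mem_cells.1 hN).2]; rfl
  rw [h, Nat.zero_testBit] at h1
  exact absurd h1 (by simp)

theorem lsub {M N : ℕ} (h : Nat.beq (Nat.lor M N) N = true) {c : Cell} (hM : c ∈ cells M) : c ∈ cells N := by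
  have h := Nat.eq_of_beq_eq_true h
  change M ||| N = N at h
  rw [mem_cells] at hM ⊢
  refine ⟨hM.1, ?_⟩
  rw [← h, Nat.testBit_or, hM.2]; rfl

theorem mem_lor {M N : ℕ} {c : Cell} : c ∈ cells (Nat.lor M N) ↔ c ∈ cells M ∨ c ∈ cells N := by
  rw [mem_cells, mem_cells, mem_cells]
  change _ ∧ (M ||| N).testBit _ = true ↔ _
  rw [Nat.testBit_or, Bool.or_eq_true]
  tauto

theorem mem_land {M N : ℕ} {c : Cell} : c ∈ cells (Nat.land M N) ↔ c ∈ cells M ∧ c ∈ cells N := by
  rw [mem_cells, mem_cells, mem_cells]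
  change _ ∧ (M &&& N).testBit _ = true ↔ _
  rw [Nat.testBit_and, Bool.and_eq_true]
  tauto

theorem mem_emp {X : ℕ} {A U : Finset Cell} (hX : Rep X A U) {c : Cell} (hi : Inb c) (hA : c ∉ A) (hU : c ∉ U) :
    c ∈ cells (emp X) := by
  rw [mem_cells]
  refine ⟨hi, emp_spec (ix_lt hi) ?_⟩
  rw [hX.digc hi hA, if_neg hU]

theorem mem_bit {s : ℕ} (hs : s < 1024) {c : Cell} : c ∈ cells (bit s) ↔ c = cl s := by
  rw [mem_cells]
  constructor
  · rintro ⟨h1, h2⟩
    have h3 := testBit_dg (bit s) (ix c) 0 (by norm_num)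
    rw [Nat.add_zero, dg_bit, h2] at h3
    by_cases h4 : ix c = s
    · rw [← h4, cl_ix h1]
    · rw [if_neg h4] at h3
      exact absurd h3 (by decide)
  · rintro rfl
    exact ⟨inb_cl hs, by rw [ix_cl]; exact bit_self s⟩

/-! Interposed fours -/

/-- Fours of Second with the answers of First. -/
inductive Q0
| nil : Q0
| cons (s y : ℕ) (sub rest : Q0) : Q0

def tm : Q0 → ℕ
  | .nil => 0
  | .cons s _ _ rest => Nat.lor (bit s) (tm rest)

def am : Q0 → ℕ
  | .nil => 0
  | .cons s y sub rest => Nat.lor (Nat.lor (bit s) (bit y)) (Nat.lor (am sub) (am rest))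

/-- All the fours. -/
def fm : Q0 → ℕ
  | .nil => 0
  | .cons s _ sub rest => Nat.lor (bit s) (Nat.lor (fm sub) (fm rest))

def dp : Q0 → ℕ
  | .nil => 0
  | .cons _ _ sub rest => max (dp sub + 1) (dp rest)

def cvr (q : Q0) (X : ℕ) : Bool := Nat.beq (Nat.lor (Nat.land (cel X c9) (emp X)) (tm q)) (tm q)

def ent : Q0 → ℕ → Bool
  | .nil, _ => true
  | .cons s y sub rest, X =>
    Bool.and (Bool.and (fre X s) (fre (Nat.lor X (bit s)) y))
      (Bool.and (Bool.and (saf (plA (Nat.lor X (bit s)) y)) (cvr sub (plA (Nat.lor X (bit s)) y)))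
        (Bool.and (ent sub (plA (Nat.lor X (bit s)) y)) (ent rest X)))

def lev (q : Q0) (X : ℕ) : Bool := Bool.and (Bool.and (saf X) (cvr q X)) (ent q X)

theorem ent_get (q : Q0) : ∀ {X : ℕ} {E U : Finset Cell}, Rep X E U → ent q X = true → ∀ c ∈ cells (tm q),
    ∃ (s y : ℕ) (sub : Q0), c = cl s ∧ s < 1024 ∧ y < 1024 ∧ fre X s = true ∧ fre (Nat.lor X (bit s)) y = true ∧
      lev sub (plA (Nat.lor X (bit s)) y) = true ∧ dp sub + 1 ≤ dp q ∧ (∀ c ∈ cells (am sub), c ∈ cells (am q)) ∧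
      (∀ c ∈ cells (fm sub), c ∈ cells (fm q)) ∧ cl s ∈ cells (am q) ∧ cl y ∈ cells (am q) ∧ cl s ∈ cells (fm q) := by
  induction q with
  | nil =>
    intro X E U hX h c hc
    have := (mem_cells.1 hc).2
    change (0 : ℕ).testBit _ = true at this
    rw [Nat.zero_testBit] at this
    exact absurd this (by simp)
  | cons s y sub rest _ ih =>
    intro X E U hX h c hc
    obtain ⟨h1, h2⟩ := andb (a := Bool.and (fre X s) (fre (Nat.lor X (bit s)) y)) h
    obtain ⟨hf, hg⟩ := andb h1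
    obtain ⟨h3, h4⟩ := andb h2
    obtain ⟨h5, h6⟩ := andb h4
    have hs := (fre_spec hX hf).1
    have hy := (fre_spec (hX.plB hf) hg).1
    rcases mem_lor.1 hc with hc | hc
    · rw [mem_bit hs] at hc
      refine ⟨s, y, sub, hc, hs, hy, hf, hg, ?_, le_max_left _ _, ?_, ?_, ?_, ?_, ?_⟩
      · unfold lev; rw [h3, h5]; rfl
      · intro c hc
        exact mem_lor.2 (Or.inr (mem_lor.2 (Or.inl hc)))
      · intro c hc
        exact mem_lor.2 (Or.inr (mem_lor.2 (Or.inl hc)))
      · exact mem_lor.2 (Or.inl (mem_lor.2 (Or.inl ((mem_bit hs).2 rfl))))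
      · exact mem_lor.2 (Or.inl (mem_lor.2 (Or.inr ((mem_bit hy).2 rfl))))
      · exact mem_lor.2 (Or.inl ((mem_bit hs).2 rfl))
    · obtain ⟨s', y', sub', g1, g2, g3, g4, g5, g6, g7, g8, g9, g10, g11, g12⟩ := ih hX h6 c hc
      refine ⟨s', y', sub', g1, g2, g3, g4, g5, g6, g7.trans (le_max_right _ _), ?_, ?_, ?_, ?_, ?_⟩
      · exact fun c hc => mem_lor.2 (Or.inr (mem_lor.2 (Or.inr (g8 c hc))))
      · exact fun c hc => mem_lor.2 (Or.inr (mem_lor.2 (Or.inr (g9 c hc))))
      · exact mem_lor.2 (Or.inr (mem_lor.2 (Or.inr g10)))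
      · exact mem_lor.2 (Or.inr (mem_lor.2 (Or.inr g11)))
      · exact mem_lor.2 (Or.inr (mem_lor.2 (Or.inr g12)))

theorem cnt_lt5 {S : Finset Cell} {a d : Cell} (h : cnt S a d < 5) : ∃ l : ℕ, l < 5 ∧ a + (l : ℤ) • d ∉ S := by
  by_contra hc
  push Not at hc
  unfold cnt at h
  rw [Finset.filter_true_of_mem (fun k hk => hc k (Finset.mem_range.1 hk))] at h
  simp at h

/-- Free cells of windows with three stones are listed. -/
theorem cvr_spec {q : Q0} {X : ℕ} {E U : Finset Cell} (hX : Rep X E U) (hc : cvr q X = true) {a d : Cell} (hd : IsDir d)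
    (hE : Avo E a d) (h3 : 3 ≤ cnt U a d) {l : ℕ} (hl : l < 5) (hU : a + (l : ℤ) • d ∉ U) : a + (l : ℤ) • d ∈ cells (tm q) := by
  have h1 := cel9 hX hd hE h3 hl
  exact lsub hc (mem_land.2 ⟨h1, mem_emp hX (mem_cells.1 h1).1 (hE l hl) hU⟩)

theorem tm_am (q : Q0) : ∀ c ∈ cells (tm q), c ∈ cells (am q) := by
  induction q with
  | nil => exact fun c hc => hc
  | cons s y sub rest _ ih =>
    intro c hc
    rcases mem_lor.1 hc with hc | hc
    · exact mem_lor.2 (Or.inl (mem_lor.2 (Or.inl hc)))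
    · exact mem_lor.2 (Or.inr (mem_lor.2 (Or.inr (ih c hc))))

variable {Z : Cell → Prop}

theorem lev_WC {q : Q0} {X : ℕ} {E U : Finset Cell} (hX : Rep X E U) (h : lev q X = true)
    (hZ : ∀ c ∈ cells (am q), ¬ Z c) : WC Z E U := by
  obtain ⟨h1, -⟩ := andb h
  obtain ⟨hs, hc⟩ := andb h1
  intro a d hd hE
  have h3 := saf_spec hX hs hd hE
  by_cases h2 : cnt U a d ≤ 2
  · exact Or.inl h2
  · refine Or.inr ⟨h3, fun l hl => ?_⟩
    by_cases hU : a + (l : ℤ) • d ∈ U
    · exact Or.inl hU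
    · exact Or.inr (hZ _ (tm_am q _ (cvr_spec hX hc hd hE (by omega) hl hU)))

theorem lev_off {q : Q0} {X : ℕ} {E U : Finset Cell} (hX : Rep X E U) (h : lev q X = true) {s : Cell}
    (hs : s ∉ cells (tm q)) (hsU : s ∉ U) {a d : Cell} (hd : IsDir d) (hE : Avo E a d) : cnt (insert s U) a d ≤ 3 := by
  obtain ⟨h1, -⟩ := andb h
  obtain ⟨hsf, hc⟩ := andb h1
  have h3 := saf_spec hX hsf hd hE
  by_cases hw : ∃ l : ℕ, l < 5 ∧ a + (l : ℤ) • d = s
  · obtain ⟨l, hl, rfl⟩ := hw
    have h4 : cnt U a d ≤ 2 := by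
      by_contra hcc
      exact hs (cvr_spec hX hc hd hE (by omega) hl hsU)
    have := cnt_insert hd U (a + (l : ℤ) • d) a
    omega
  · push Not at hw
    rw [cnt_insert_of_not hw]
    exact h3

theorem lev_dp0 {q : Q0} (h : dp q = 0) : q = .nil := by
  cases q with
  | nil => rfl
  | cons s y sub rest =>
    change max (dp sub + 1) (dp rest) = 0 at h
    have := le_max_left (dp sub + 1) (dp rest)
    omega

theorem lev_two {X : ℕ} {E U : Finset Cell} (hX : Rep X E U) (h : lev .nil X = true) {a d : Cell} (hd : IsDir d)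
    (hE : Avo E a d) : cnt U a d ≤ 2 := by
  obtain ⟨h1, -⟩ := andb h
  obtain ⟨hsf, hc⟩ := andb h1
  have h3 := saf_spec hX hsf hd hE
  by_contra hcc
  obtain ⟨l, hl, hlU⟩ := cnt_lt5 (S := U) (a := a) (d := d) (by omega)
  have := (mem_cells.1 (cvr_spec hX hc hd hE (by omega) hl hlU)).2
  change (0 : ℕ).testBit _ = true at this
  rw [Nat.zero_testBit] at this
  exact absurd this (by simp)

theorem lev_EX (k : ℕ) : ∀ {q : Q0} {X : ℕ} {E U : Finset Cell}, Rep X E U → lev q X = true → dp q ≤ k →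
    (∀ c ∈ cells (am q), ¬ Z c) → EX Z k E U := by
  induction k with
  | zero =>
    intro q X E U hX h hq hZ a d hd hE
    have := lev_dp0 (q := q) (by omega)
    subst this
    exact lev_two hX h hd hE
  | succ k ih =>
    intro q X E U hX h hq hZ
    refine ⟨lev_WC hX h hZ, fun s hsE hsU => ?_⟩
    by_cases hs : s ∈ cells (tm q)
    · right
      obtain ⟨-, h2⟩ := andb h
      obtain ⟨s, y, sub, rfl, g2, g3, g4, g5, g6, g7, g8, g9, g10, g11, g12⟩ := ent_get q hX h2 s hs
      have hX' := hX.plB g4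
      have hy := fre_spec hX' g5
      exact ⟨hZ _ g10, cl y, hy.2.2.1, hy.2.2.2, hZ _ g11,
        ih (hX'.plA g5) g6 (by omega) (fun c hc => hZ c (g8 c hc))⟩
    · exact Or.inl fun a d hd hE => lev_off hX h hs hsU hd hE

/-- With one more stone `v` of Second in an unimportant place. -/
theorem lev_EXi {v : Cell} {C : Finset Cell} (k : ℕ) : ∀ {q : Q0} {X : ℕ} {E U : Finset Cell}, Rep X E U → lev q X = true →
    dp q ≤ k → (∀ c ∈ cells (am q), ¬ Z c) → v ∉ E → v ∉ U → v ∉ cells (am q) → U ⊆ C → (∀ c ∈ cells (fm q), c ∈ C) →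
    (∀ a d : Cell, IsDir d → Avo E a d → ∀ l : ℕ, l < 5 → a + (l : ℤ) • d = v → cnt C a d ≤ 1) → EX Z k E (insert v U) := by
  induction k with
  | zero =>
    intro q X E U hX h hq hZ hvE hvU hvq hUC hfC hC a d hd hE
    have := lev_dp0 (q := q) (by omega)
    subst this
    by_cases hw : ∃ l : ℕ, l < 5 ∧ a + (l : ℤ) • d = v
    · obtain ⟨l, hl, hlv⟩ := hw
      have h1 := hC a d hd hE l hl hlv
      have h2 := cnt_mono hUC a d
      have h3 := cnt_insert hd U v a
      omega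
    · push Not at hw
      rw [cnt_insert_of_not hw]
      exact lev_two hX h hd hE
  | succ k ih =>
    intro q X E U hX h hq hZ hvE hvU hvq hUC hfC hC
    have hv2 : ∀ a d : Cell, IsDir d → Avo E a d → ∀ l : ℕ, l < 5 → a + (l : ℤ) • d = v → cnt (insert v U) a d ≤ 2 := by
      intro a d hd hE l hl hlv
      have h1 := hC a d hd hE l hl hlv
      have h2 := cnt_mono hUC a d
      have h3 := cnt_insert hd U v a
      omega
    refine ⟨fun a d hd hE => ?_, fun s hsE hsU => ?_⟩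
    · by_cases hw : ∃ l : ℕ, l < 5 ∧ a + (l : ℤ) • d = v
      · obtain ⟨l, hl, hlv⟩ := hw
        exact Or.inl (hv2 a d hd hE l hl hlv)
      · push Not at hw
        rw [cnt_insert_of_not hw]
        rcases lev_WC hX h hZ a d hd hE with h4 | ⟨h4, h5⟩
        · exact Or.inl h4
        · exact Or.inr ⟨h4, fun l hl => (h5 l hl).imp (fun h => Finset.mem_insert_of_mem h) id⟩
    · rw [Finset.mem_insert, not_or] at hsU
      by_cases hs : s ∈ cells (tm q)
      · right
        obtain ⟨-, h2⟩ := andb h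
        obtain ⟨s, y, sub, rfl, g2, g3, g4, g5, g6, g7, g8, g9, g10, g11, g12⟩ := ent_get q hX h2 s hs
        have hX' := hX.plB g4
        have hy := fre_spec hX' g5
        have hvy : v ≠ cl y := fun h => hvq (h ▸ g11)
        refine ⟨hZ _ g10, cl y, hy.2.2.1, ?_, hZ _ g11, ?_⟩
        · have h8 := hy.2.2.2
          simp only [Finset.mem_insert, not_or] at h8 ⊢
          exact ⟨h8.1, hvy.symm, h8.2⟩
        · rw [Finset.insert_comm]
          apply ih (hX'.plA g5) g6 (by omega) (fun c hc => hZ c (g8 c hc))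
          · rw [Finset.mem_insert, not_or]; exact ⟨hvy, hvE⟩
          · rw [Finset.mem_insert, not_or]; exact ⟨fun h => hsU.1 h.symm, hvU⟩
          · exact fun hc => hvq (g8 v hc)
          · intro x hx
            rcases Finset.mem_insert.1 hx with rfl | hx
            · exact hfC _ g12
            · exact hUC hx
          · exact fun c hc => hfC c (g9 c hc)
          · intro a d hd hE
            exact hC a d hd fun l hl hc => hE l hl (Finset.mem_insert_of_mem hc)
      · left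
        intro a d hd hE
        by_cases hw : ∃ l : ℕ, l < 5 ∧ a + (l : ℤ) • d = v
        · obtain ⟨l, hl, hlv⟩ := hw
          have h1 := hv2 a d hd hE l hl hlv
          have h2 := cnt_insert hd (insert v U) s a
          omega
        · push Not at hw
          rw [Finset.insert_comm, cnt_insert_of_not hw]
          exact lev_off hX h hs hsU.2 hd hE

end Pool.Agent.H94.Five.M
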