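import Pool.Agent.H94.Five.Mid.Mid

set_option autoImplicit false

/-! Second answers six to nine columns away: First wins. -/

namespace Pool.Agent.H94.Five

open Pool.Agent.H79.Five

/-- **Second's first stone is six to nine columns to the right** (in the sector `0 ≤ y ≤ x`): First wins. -/
theorem mid_S1 : ∃ n, ∀ d : Cell, 6 ≤ d.1 → d.1 ≤ 9 → 0 ≤ d.2 → d.2 ≤ d.1 → W n {((0 : ℤ), (0 : ℤ))} {d} :=
  Mid.mid_S1

end Pool.Agent.H94.Five
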