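import Pool.Agent.H94.Five.NS
import Pool.Agent.H83.Five.Sym

set_option autoImplicit false
set_option linter.all false
set_option maxRecDepth 10000
set_option exponentiation.threshold 20000

/-! One first stone of Second: all the second stones. -/

namespace Pool.Agent.H94.Five.M

open Pool.Agent.H79.Five Pool.Agent.H10.Five

theorem cel11' {X : ℕ} {A U : Finset Cell} (hX : Rep X A U) {a d : Cell} (hd : IsDir d) (hA : Avo A a d) (h1 : 1 ≤ cnt U a d)
    {k : ℕ} (hk : k < 5) : a + (k : ℤ) • d ∈ cells (cel X c11) := by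
  rw [mem_cells, c11_eq]
  exact cel_win hX (by norm_num) hd hA (by omega) hk

/-- Groups `(t, zones)`. -/
abbrev ZG := ℕ × List ℕ

def AZG (X2 : ℕ) (l : List ZG) : Prop := ∀ g ∈ l, AZ (Nat.lor X2 (bit g.1)) g.2

theorem AZG.nil {X2 : ℕ} : AZG X2 [] := fun e he => absurd he (by simp)

theorem AZG.cons {X2 : ℕ} {g : ZG} {l : List ZG} (h : AZ (Nat.lor X2 (bit g.1)) g.2) (hl : AZG X2 l) : AZG X2 (g :: l) := by
  intro x hx
  rcases List.mem_cons.1 hx with rfl | hx
  · exact h
  · exact hl x hx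

/-- The cells `t` whose zones have a member without `a`. -/
def gbad (a : ℕ) (l : List ZG) : ℕ :=
  @List.rec ZG (fun _ => ℕ) (nat_lit 0)
    (fun g _ r => @Bool.rec (fun _ => ℕ) r (Nat.lor (bit g.1) r) (Nat.beq (Nat.land (andl g.2) (bit a)) 0)) l

def allf (X2 : ℕ) (l : List ZG) : Bool := @List.rec ZG (fun _ => Bool) true (fun g _ r => Bool.and (fre X2 g.1) r) l

theorem AZG.get {X2 : ℕ} {A : Finset Cell} (hX2 : Rep X2 A ∅) {l : List ZG} (h : AZG X2 l) (hf : allf X2 l = true) :
    ∃ n, ∀ a < 1024, cl a ∉ A → ∀ t ∈ cells (gbad a l), t ≠ cl a → W n A {cl a, t} := by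
  induction l with
  | nil =>
    refine ⟨0, fun a _ _ t ht => ?_⟩
    have := (mem_cells.1 ht).2
    change (0 : ℕ).testBit _ = true at this
    rw [Nat.zero_testBit] at this
    exact absurd this (by simp)
  | cons g l ih =>
    obtain ⟨hf1, hf2⟩ := andb (a := fre X2 g.1) hf
    obtain ⟨n, hn⟩ := ih (fun x hx => h x (List.mem_cons_of_mem _ hx)) hf2
    have hX := hX2.plB hf1
    obtain ⟨n', hn'⟩ := AZ.get (h g List.mem_cons_self) hX
    obtain ⟨hg, -, -, -⟩ := fre_spec hX2 hf1
    refine ⟨max n n', fun a ha haA t ht hta => ?_⟩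
    change t ∈ cells (@Bool.rec (fun _ => ℕ) (gbad a l) (Nat.lor (bit g.1) (gbad a l)) (Nat.beq (Nat.land (andl g.2) (bit a)) 0)) at ht
    cases hb : Nat.beq (Nat.land (andl g.2) (bit a)) 0 with
    | false =>
      rw [hb] at ht
      exact (hn a ha haA t ht hta).le (le_max_left _ _)
    | true =>
      rw [hb] at ht
      rcases mem_lor.1 ht with ht | ht
      · rw [mem_bit hg] at ht
        subst ht
        rcases hn' (cl a) haA (by simpa using hta.symm) with h1 | h1
        · exact h1.le (le_max_right _ _)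
        · exact absurd ((mem_bit ha).2 rfl) (land0 hb (mem_cells.2 ⟨inb_cl ha, h1 (inb_cl ha)⟩))
      · exact (hn a ha haA t ht hta).le (le_max_left _ _)

/-- Facts for the pairs `a`, `t`. -/
def RT (X2 a : ℕ) : List ℕ → Prop
  | [] => True
  | t :: l => S (Nat.lor X2 (bits [a, t])) ∧ RT X2 a l

def rk (X2 a : ℕ) (l : List ℕ) : Bool := @List.rec ℕ (fun _ => Bool) true (fun t _ r => Bool.and (dOk X2 (bits [a, t])) r) l

theorem RT.get {X2 a : ℕ} {A : Finset Cell} (hX2 : Rep X2 A ∅) (ha : a < 1024) {l : List ℕ} (h : RT X2 a l) (hk : rk X2 a l = true)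
    (hl : ∀ t ∈ l, t < 1024) : ∃ n, ∀ t ∈ cells (bits l), W n A {cl a, t} := by
  induction l with
  | nil =>
    refine ⟨0, fun t ht => ?_⟩
    have := (mem_cells.1 ht).2
    change (0 : ℕ).testBit _ = true at this
    rw [Nat.zero_testBit] at this
    exact absurd this (by simp)
  | cons t l ih =>
    obtain ⟨hk1, hk2⟩ := andb (a := dOk X2 (bits [a, t])) hk
    obtain ⟨n, hn⟩ := ih h.2 hk2 fun x hx => hl x (List.mem_cons_of_mem _ hx)
    obtain ⟨hX, -, -⟩ := hX2.lor (dg01_bits [a, t]) hk1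
    obtain ⟨n', hn'⟩ := h.1 _ _ hX
    have ht := hl t List.mem_cons_self
    refine ⟨max n n', fun x hx => ?_⟩
    rcases mem_lor.1 (show x ∈ cells (Nat.lor (bit t) (bits l)) from hx) with hx | hx
    · rw [mem_bit ht] at hx
      subst hx
      apply (hn'.anti _).le (le_max_right _ _)
      intro y hy
      apply Finset.mem_union_right
      change y ∈ cells (Nat.lor (bit a) (Nat.lor (bit t) 0))
      rw [Finset.mem_insert, Finset.mem_singleton] at hy
      rcases hy with rfl | rfl
      · exact mem_lor.2 (Or.inl ((mem_bit ha).2 rfl))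
      · exact mem_lor.2 (Or.inr (mem_lor.2 (Or.inl ((mem_bit ht).2 rfl))))
    · exact (hn x hx).le (le_max_left _ _)

theorem RT.append {X2 a : ℕ} {l l' : List ℕ} (h : RT X2 a l) (h' : RT X2 a l') : RT X2 a (l ++ l') := by
  induction l with
  | nil => exact h'
  | cons t l ih => exact ⟨h.1, ih h.2⟩

theorem OKE.mk {XB M0 : ℕ} {e : Ent} (t : T)
    (h : Bool.and (wf XB M0 e) (Nat.beq (z3 t (Nat.lor XB e.1) e.2.1 e.2.2.1 e.2.2.2) 1) = true) : OKE XB M0 e := by
  obtain ⟨h1, h2⟩ := andb h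
  exact ⟨h1, C3.of t (Nat.eq_of_beq_eq_true h2)⟩

/-- The conditions for the class `a`. -/
def clk (X2 BADF MA a : ℕ) (ts : List ℕ) (gz : List ZG) : Bool :=
  Bool.and (Bool.and (fre X2 a) (Bool.and (Nat.beq (Nat.lor (bit a) MA) MA) (rk X2 a ts)))
    (Bool.and (Nat.beq (Nat.lor (Nat.land (cel (Nat.lor X2 (bit a)) c11) (emp X2)) (Nat.lor (bits ts) (bit a))) (Nat.lor (bits ts) (bit a)))
      (Bool.and (Nat.beq (Nat.lor BADF (Nat.lor (bits ts) (Nat.lor (gbad a gz) (bit a)))) (Nat.lor (bits ts) (Nat.lor (gbad a gz) (bit a))))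
        (Nat.beq (Nat.lor (bits ts) ones) ones)))

/-- The conclusion of `ns_main`. -/
def NSC (M0 BAD MA : ℕ) : Prop := ∃ N, ∀ a t : Cell, (Inb a → a ∈ cells MA) → a ≠ t → a ∉ cells M0 → t ∉ cells M0 →
      t ∉ cells BAD → (∀ x d : Cell, IsDir d → Avo (cells M0) x d → cnt {a, t} x d ≤ 1) → WS N (cells M0) {a, t}

theorem ts_lt {ts : List ℕ} (h : Nat.beq (Nat.lor (bits ts) ones) ones = true) : ∀ t ∈ ts, t < 1024 := by
  intro t ht
  by_contra hc
  have h1 := Nat.eq_of_beq_eq_true h
  change bits ts ||| ones = ones at h1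
  have h2 : (bits ts).testBit (6 * t) = true := by
    clear h h1 hc
    induction ts with
    | nil => exact absurd ht (by simp)
    | cons x l ih =>
      change (bit x ||| bits l).testBit _ = true
      rw [Nat.testBit_or]
      rcases List.mem_cons.1 ht with rfl | ht
      · rw [bit_self]; rfl
      · rw [ih ht, Bool.or_true]
  have h3 : ones.testBit (6 * t) = true := by rw [← h1, Nat.testBit_or, h2]; rfl
  have h4 : ones < 2 ^ (6 * t) := by
    have h5 : ones < 2 ^ 6144 := by decide +kernel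
    exact lt_of_lt_of_le h5 (Nat.pow_le_pow_right (by norm_num) (by omega))
  rw [Nat.testBit_lt_two_pow h4] at h3
  exact absurd h3 (by simp)

/-- **All the second stones of Second**, for the first stone `a`. -/
theorem cls {f1 f2 : Cell} {f3 X2 M0 BAD MA : ℕ} (hf : f1 ≠ f2) (hX2 : Rep X2 {f2, f1} ∅) (hf3 : fre X2 f3 = true)
    (hM : cells M0 = insert (cl f3) {f2, f1}) (hns : NSC M0 BAD MA) (h3M : Nat.beq (Nat.land MA (bit f3)) 0 = true)
    {gz : List ZG} (hgz : AZG X2 gz) (hgf : allf X2 gz = true) {a : ℕ} {ts : List ℕ} (hr : RT X2 a ts)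
    (hk : clk X2 (Nat.lor BAD (bit f3)) MA a ts gz = true) : ∃ n, W n {f1} {cl a} := by
  obtain ⟨h1, h2⟩ := andb (a := Bool.and (fre X2 a) (Bool.and (Nat.beq (Nat.lor (bit a) MA) MA) (rk X2 a ts))) hk
  obtain ⟨hfa, h3⟩ := andb h1
  obtain ⟨haM, hrk⟩ := andb h3
  obtain ⟨hstar, h4⟩ := andb (a := Nat.beq (Nat.lor (Nat.land (cel (Nat.lor X2 (bit a)) c11) (emp X2)) (Nat.lor (bits ts) (bit a))) (Nat.lor (bits ts) (bit a))) h2
  obtain ⟨hbad, htl⟩ := andb (a := Nat.beq (Nat.lor (Nat.lor BAD (bit f3)) (Nat.lor (bits ts) (Nat.lor (gbad a gz) (bit a)))) (Nat.lor (bits ts) (Nat.lor (gbad a gz) (bit a)))) h4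
  obtain ⟨ha, hai, haA, -⟩ := fre_spec hX2 hfa
  obtain ⟨h3, h3i, h3A, -⟩ := fre_spec hX2 hf3
  obtain ⟨n1, hn1⟩ := hr.get hX2 ha hrk (ts_lt htl)
  obtain ⟨n2, hn2⟩ := hgz.get hX2 hgf
  obtain ⟨n3, hn3⟩ := hns
  have haMA : cl a ∈ cells MA := lsub haM ((mem_bit ha).2 rfl)
  have ha3 : cl a ≠ cl f3 := fun h => land0 h3M haMA ((mem_bit h3).2 h)
  have haf : f2 ≠ cl a ∧ f1 ≠ cl a := by
    simp only [Finset.mem_insert, Finset.mem_singleton, not_or] at haA
    exact ⟨fun h => haA.1 h.symm, fun h => haA.2 h.symm⟩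
  refine ⟨max n1 (max n2 (n3 + 1)) + 1, f2, by simpa using hf.symm, by simpa using haf.1, Or.inr fun t htA htB => ⟨not_five_pair _ _, ?_⟩⟩
  have hta : t ≠ cl a := by simpa using htB
  rw [Finset.pair_comm t (cl a)]
  by_cases ht1 : t ∈ cells (bits ts)
  · exact (hn1 t ht1).le (le_max_left _ _)
  · by_cases ht2 : t ∈ cells (Nat.lor BAD (bit f3))
    · rcases mem_lor.1 (lsub hbad ht2) with h | h
      · exact absurd h ht1
      · rcases mem_lor.1 h with h | h
        · exact (hn2 a ha haA t h hta).le ((le_max_left _ _).trans (le_max_right _ _))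
        · exact absurd ((mem_bit ha).1 h) hta
    · rw [mem_lor, not_or, mem_bit h3] at ht2
      apply W.le ((le_max_right _ _).trans (le_max_right _ _))
      refine ⟨cl f3, h3A, ?_, Or.inr ?_⟩
      · simp only [Finset.mem_insert, Finset.mem_singleton, not_or]
        exact ⟨ha3.symm, fun h => ht2.2 h.symm⟩
      · have := hn3 (cl a) t (fun _ => haMA) hta.symm (by
            rw [hM, Finset.mem_insert, not_or]; exact ⟨ha3, haA⟩) (by
            rw [hM, Finset.mem_insert, not_or]; exact ⟨ht2.2, htA⟩) ht2.1 ?_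
        · rw [hM] at this
          exact this
        · intro x d hd hA
          have hA' : Avo {f2, f1} x d := fun l hl hc => hA l hl (by rw [hM]; exact Finset.mem_insert_of_mem hc)
          have hX' := hX2.plB hfa
          by_cases hxa : ∃ l : ℕ, l < 5 ∧ x + (l : ℤ) • d = cl a
          · obtain ⟨l, hl, hla⟩ := hxa
            have hc : 1 ≤ cnt (insert (cl a) ∅) x d := by
              unfold cnt
              rw [Nat.succ_le_iff, Finset.card_pos]
              exact ⟨l, by rw [Finset.mem_filter, Finset.mem_range]; exact ⟨hl, by rw [hla]; exact Finset.mem_insert_self _ _⟩⟩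
            rw [Finset.pair_comm]
            refine cnt_notin (fun l' hl' he => ?_) hd
            have h5 := cel11' hX' hd hA' hc hl'
            rw [he] at h5
            rcases mem_lor.1 (lsub hstar (mem_land.2 ⟨h5, mem_emp hX2 (mem_cells.1 h5).1 htA (by simp)⟩)) with h | h
            · exact ht1 h
            · exact hta ((mem_bit ha).1 h)
          · push Not at hxa
            exact cnt_notin hxa hd

end Pool.Agent.H94.Five.M
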