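import Pool.Agent.H79.Five.Sem
import Pool.Agent.H94.Five.Far2

set_option autoImplicit false
set_option linter.all false
set_option maxRecDepth 10000

/-! Composition of certificates: known stones of Second near, the other one far to the right. -/

namespace Pool.Agent.H94.Five

open Pool.Agent.H79.Five

/-- The value of `t` at scope 2 has zone 0 inside `Y` and zone 1 inside `V`. -/
noncomputable def z2 (t : T) (X Y V : ℕ) : ℕ :=
  bnd (F t false X 2 0 0 0) fun p =>
    grd (Nat.beq (Nat.lor (Nat.land (Nat.shiftRight p 64) (mask 1)) Y) Y)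
      (grd (Nat.beq (Nat.lor (Nat.shiftRight p 6208) V) V) 1)

/-- The position `X` has a certificate at scope 2 with zone 0 inside `Y` and zone 1 inside `V`. -/
def E2 (X Y V : ℕ) : Prop :=
  ∃ N, Chk X 2 N ∧ (∀ c, zn (N >>> 64) 0 c → c ∈ cells Y) ∧ (∀ c, zn (N >>> 64) 1 c → c ∈ cells V)

theorem E2.of {X Y V : ℕ} (t : T) (h : z2 t X Y V = 1) : E2 X Y V := by
  obtain ⟨p, hp, h1⟩ := bnd_eq (N := 0) h
  obtain ⟨h2, h3⟩ := grd_eq (N := 0) h1
  obtain ⟨h4, -⟩ := grd_eq (N := 0) h3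
  have h2 := Nat.eq_of_beq_eq_true h2
  have h4 := Nat.eq_of_beq_eq_true h4
  change ((p >>> 64) &&& mask 1) ||| Y = Y at h2
  change (p >>> 6208) ||| V = V at h4
  refine ⟨p, ⟨t, hp⟩, fun c hc => ?_, fun c hc => ?_⟩
  · rw [mem_cells]
    refine ⟨hc.1, ?_⟩
    have h5 := hc.2
    rw [Nat.mul_zero, Nat.zero_add] at h5
    have h6 : (mask 1).testBit (6 * ix c) = true := by
      change (1 <<< (6144 * 1) - 1).testBit _ = true
      rw [Nat.one_shiftLeft, Nat.testBit_two_pow_sub_one]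
      have := ix_lt hc.1
      simp; omega
    rw [← h2, Nat.testBit_or, Nat.testBit_and, h5, h6]; rfl
  · rw [mem_cells]
    refine ⟨hc.1, ?_⟩
    have h5 := hc.2
    rw [Nat.testBit_shiftRight] at h5
    rw [← h4, Nat.testBit_or, Nat.testBit_shiftRight,
      show 6208 + 6 * ix c = 64 + (6144 * 1 + 6 * ix c) by ring, h5]; rfl

/-- All positions of the list have certificates with zones inside `Y`. -/
def AE (Y : ℕ) : List (List ℕ × ℕ) → Prop
  | [] => True
  | a :: l => E2 a.2 Y Y ∧ AE Y l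

theorem AE.get {X Y : ℕ} {A : Finset Cell} (hX : Rep X A ∅) {ds : List (List ℕ × ℕ)} (hd : dk X ds = true) (h : AE Y ds) :
    ∀ s, Inb s → (orl ds).testBit (6 * ix s) = true →
      ∃ (X' N : ℕ) (B : Finset Cell), Rep X' A B ∧ s ∈ B ∧ Chk X' 2 N ∧ ∀ i < 2, ∀ c, zn (N >>> 64) i c → c ∈ cells Y := by
  induction ds with
  | nil =>
    intro s _ hs
    change (0 : ℕ).testBit _ = true at hs
    rw [Nat.zero_testBit] at hs
    exact absurd hs (by simp)
  | cons d l ih =>
    change Bool.and (Bool.and (dOk X (bits d.1)) (Nat.beq (Nat.lor X (bits d.1)) d.2)) (dk X l) = true at hd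
    obtain ⟨h1, h2⟩ := andb hd
    obtain ⟨h3, h4⟩ := andb h1
    have h4 := Nat.eq_of_beq_eq_true h4
    intro s hs hb
    change (bits d.1 ||| orl l).testBit (6 * ix s) = true at hb
    rw [Nat.testBit_or] at hb
    rcases Bool.or_eq_true _ _ ▸ hb with hb | hb
    · obtain ⟨hX2, -, -⟩ := hX.lor (dg01_bits d.1) h3
      rw [h4] at hX2
      obtain ⟨N, hN, hz0, hz1⟩ := h.1
      refine ⟨d.2, N, _, hX2, Finset.mem_union_right _ (mem_cells.2 ⟨hs, hb⟩), hN, fun i hi c hc => ?_⟩
      interval_cases i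
      · exact hz0 c hc
      · exact hz1 c hc
    · exact ih h2 h.2 s hs hb

/-- Certificates at scope 1: `(D, X, Z)`. -/
def AN : List (List ℕ × ℕ × ℕ) → Prop
  | [] => True
  | a :: l => NZ a.2.1 a.2.2 ∧ AN l

def orn (ds : List (List ℕ × ℕ × ℕ)) : ℕ :=
  @List.rec (List ℕ × ℕ × ℕ) (fun _ => ℕ) (nat_lit 0) (fun d _ r => Nat.lor (bits d.1) r) ds

/-- The zones avoid `M`. -/
def kn (X M : ℕ) (ds : List (List ℕ × ℕ × ℕ)) : Bool :=
  @List.rec (List ℕ × ℕ × ℕ) (fun _ => Bool) true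
    (fun d _ r => Bool.and (Bool.and (Bool.and (dOk X (bits d.1)) (Nat.beq (Nat.lor X (bits d.1)) d.2.1))
      (Nat.beq (Nat.land d.2.2 M) 0)) r) ds

theorem AN.get {X M : ℕ} {A : Finset Cell} (hX : Rep X A ∅) {ds : List (List ℕ × ℕ × ℕ)} (hd : kn X M ds = true) (h : AN ds) :
    ∃ n, ∀ t, Inb t → (orn ds).testBit (6 * ix t) = true → ∀ u, u ∉ A → (Inb u → M.testBit (6 * ix u) = true) →
      W n A {t, u} := by
  induction ds with
  | nil =>
    refine ⟨0, fun t _ ht => ?_⟩
    change (0 : ℕ).testBit _ = true at ht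
    rw [Nat.zero_testBit] at ht
    exact absurd ht (by simp)
  | cons d l ih =>
    change Bool.and (Bool.and (Bool.and (dOk X (bits d.1)) (Nat.beq (Nat.lor X (bits d.1)) d.2.1))
      (Nat.beq (Nat.land d.2.2 M) 0)) (kn X M l) = true at hd
    obtain ⟨h1, h2⟩ := andb hd
    obtain ⟨h3, h5⟩ := andb h1
    obtain ⟨h3, h4⟩ := andb h3
    have h4 := Nat.eq_of_beq_eq_true h4
    have h5 := Nat.eq_of_beq_eq_true h5
    change d.2.2 &&& M = 0 at h5
    obtain ⟨n, hn⟩ := ih h2 h.2
    obtain ⟨hX2, -, -⟩ := hX.lor (dg01_bits d.1) h3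
    have hN := h.1
    rw [← h4] at hN
    obtain ⟨n', hn'⟩ := hN _ _ hX2
    refine ⟨max n n', fun t ht hb u huA huM => ?_⟩
    change (bits d.1 ||| orn l).testBit (6 * ix t) = true at hb
    rw [Nat.testBit_or] at hb
    rcases Bool.or_eq_true _ _ ▸ hb with hb | hb
    · have huZ : u ∉ cells d.2.2 := by
        intro hc
        obtain ⟨hi, hz⟩ := mem_cells.1 hc
        have h6 : (d.2.2 &&& M).testBit (6 * ix u) = true := by
          rw [Nat.testBit_and, hz, huM hi]; rfl
        rw [h5, Nat.zero_testBit] at h6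
        exact absurd h6 (by simp)
      apply ((hn' u huA huZ).anti _).le (le_max_right _ _)
      intro x hx
      rw [Finset.mem_insert, Finset.mem_singleton] at hx
      rcases hx with rfl | rfl
      · exact Finset.mem_insert_of_mem (Finset.mem_union_right _ (mem_cells.2 ⟨ht, hb⟩))
      · exact Finset.mem_insert_self _ _
    · exact (hn t ht hb u huA huM).le (le_max_left _ _)

theorem not_five_pair (x y : Cell) : ¬ Five {x, y} := by
  intro h
  obtain ⟨a, d, hd, -, hc⟩ := cnt_five h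
  have g1 := cnt_insert hd {y} x a
  have g2 := cnt_insert hd ∅ y a
  have g3 : (insert y ∅ : Finset Cell) = {y} := rfl
  rw [g3] at g2
  rw [Pool.Agent.H94.Five.cnt_empty] at g2
  omega

/-- The far class: First has `f1`, answers `f2`, and then either plays `f3` against two unknown stones or uses
a certificate for the position of the near stone of Second. -/
theorem far_main {f1 f2 : Cell} {f3 X1 X2 YM VM MM : ℕ} {L1 : List (List ℕ × ℕ × ℕ)} {L2 : List (List ℕ × ℕ)}
    (hf : f1 ≠ f2) (hf1 : f1.1 ≤ 24) (hf2 : f2.1 ≤ 24) (hX1 : Rep X1 {f2, f1} ∅)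
    (h3 : fre X1 f3 = true) (h3' : (cl f3).1 ≤ 24) (hX2 : Nat.beq (plA X1 f3) X2 = true)
    (h0 : E2 X2 YM VM) (hd2 : dk X2 L2 = true) (hL2 : AE YM L2) (hV : Nat.beq (Nat.lor VM (orl L2)) (orl L2) = true)
    (hVY : Nat.beq (Nat.lor VM YM) YM = true)
    (hY : ∀ c ∈ cells YM, c.1 ≤ 25) (hd1 : kn X1 MM L1 = true) (hL1 : AN L1)
    (hcov : Nat.beq (Nat.lor (Nat.lor YM (bit f3)) (orn L1)) (orn L1) = true)
    (hMM : ∀ n < 1024, 30 ≤ (cl n).1 → MM.testBit (6 * n) = true) :
    ∃ n, ∀ u : Cell, 30 ≤ u.1 → W n {f1} {u} := by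
  have hX2 := Nat.eq_of_beq_eq_true hX2
  have hV := Nat.eq_of_beq_eq_true hV
  have hVY := Nat.eq_of_beq_eq_true hVY
  have hcov := Nat.eq_of_beq_eq_true hcov
  change VM ||| orl L2 = orl L2 at hV
  change VM ||| YM = YM at hVY
  change (YM ||| bit f3) ||| orn L1 = orn L1 at hcov
  obtain ⟨hm, hmi, hmA, hmB⟩ := fre_spec hX1 h3
  have hX1' := hX1.plA h3
  rw [hX2] at hX1'
  obtain ⟨n1, hn1⟩ := hL1.get hX1 hd1
  obtain ⟨N, hN, hz0, hz1⟩ := h0
  obtain ⟨n2, hn2⟩ := far_far (A0 := insert (cl f3) {f2, f1}) (Y := fun c => c ∈ cells YM) hX1' hN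
    (by
      intro c hc
      simp only [Finset.mem_insert, Finset.mem_singleton] at hc
      rcases hc with rfl | rfl | rfl <;> assumption)
    hY
    (by
      intro i hi c hc
      interval_cases i
      · exact hz0 c hc
      · obtain ⟨h6, h7⟩ := mem_cells.1 (hz1 c hc)
        refine mem_cells.2 ⟨h6, ?_⟩
        rw [← hVY, Nat.testBit_or, h7]; rfl)
    (by
      intro s _ hs
      obtain ⟨h6, h7⟩ := mem_cells.1 (hz1 s hs)
      apply hL2.get hX1' hd2 s h6
      rw [← hV, Nat.testBit_or, h7]; rfl)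
  refine ⟨max n1 (n2 + 1) + 1, fun u hu => ?_⟩
  have huf1 : f2 ≠ u := by rintro rfl; omega
  have huf2 : f1 ≠ u := by rintro rfl; omega
  refine ⟨f2, by simpa using hf.symm, by simpa using huf1, Or.inr fun s hsA hsB => ⟨not_five_pair _ _, ?_⟩⟩
  have hsf : s ≠ f2 ∧ s ≠ f1 := by simpa using hsA
  have hsu : s ≠ u := by simpa using hsB
  by_cases hs : s ∈ cells YM ∨ s = cl f3
  · apply W.le (le_max_left _ _)
    have h8 : Inb s ∧ (orn L1).testBit (6 * ix s) = true := by
      rcases hs with hs | hs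
      · obtain ⟨h6, h7⟩ := mem_cells.1 hs
        refine ⟨h6, ?_⟩
        rw [← hcov, Nat.testBit_or, Nat.testBit_or, h7]; rfl
      · subst hs
        refine ⟨inb_cl hm, ?_⟩
        rw [ix_cl, ← hcov, Nat.testBit_or, Nat.testBit_or, bit_self]; simp
    apply hn1 s h8.1 h8.2 u
    · simp [huf1.symm, huf2.symm]
    · intro hi
      have := hMM (ix u) (ix_lt hi)
      rw [cl_ix hi] at this
      exact this hu
  · push Not at hs
    apply W.le (le_max_right _ _)
    have huf3 : u ≠ cl f3 := by rintro rfl; omega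
    refine ⟨cl f3, hmA, ?_, Or.inr ?_⟩
    · simp [hs.2.symm, huf3.symm]
    · have := hn2 ∅ u s hsu.symm (by simp [huf3, huf1.symm, huf2.symm]) (by simp [hs.2, hsf.1, hsf.2]) hu hs.1
      rw [Finset.union_empty, Finset.pair_comm u s] at this
      exact this

end Pool.Agent.H94.Five
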