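import Pool.Agent.H94.Five.VW
import Pool.Agent.H94.Five.Q2

set_option autoImplicit false
set_option linter.all false
set_option maxRecDepth 10000
set_option exponentiation.threshold 20000

/-! The third stone of First against two stones of Second which share no window. -/

namespace Pool.Agent.H94.Five.M

open Pool.Agent.H79.Five Pool.Agent.H10.Five

/-- The direct use of an entry. -/
theorem OKE.win {XB M0 : ℕ} (hB : Base XB M0) {e : Ent} (he : OKE XB M0 e) : ∃ n, ∀ {U R : Finset Cell},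
    (∀ a d : Cell, IsDir d → Avo (cells M0) a d → cnt U a d ≤ 2) → (∀ c ∈ U, c ∉ cells e.2.2.1) →
    (∀ a d : Cell, IsDir d → Avo (cells M0) a d → (∀ l : ℕ, l < 5 → a + (l : ℤ) • d ∈ cells e.2.1) → cnt U a d ≤ 1) →
    R ⊆ cells e.1 ∪ U → Disjoint R (cells M0) → W n (cells M0) R := by
  obtain ⟨hw, t, N, hF, hz0, hz1, hsp⟩ := he
  obtain ⟨hw1, hw2⟩ := andb (a := Bool.and (Bool.and (Nat.beq (Nat.lor e.2.1 ones) ones) (Nat.beq (Nat.lor M0 e.2.2.2) e.2.2.2)) _) hw
  obtain ⟨hw3, hw4⟩ := andb (a := Bool.and (Nat.beq (Nat.lor e.2.1 ones) ones) (Nat.beq (Nat.lor M0 e.2.2.2) e.2.2.2)) hw1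
  obtain ⟨hd0, hM⟩ := andb hw3
  obtain ⟨hD, hw5⟩ := andb hw4
  obtain ⟨hO, hD1⟩ := andb hw5
  obtain ⟨h0s, h1s⟩ := andb hw2
  obtain ⟨hX2, -, -⟩ := hB.1.lor (D01.of hD1) hO
  rw [Finset.empty_union] at hX2
  refine ⟨ht t + 0, fun {U R} h2 h1 h0 hR hdis => ?_⟩
  have := (soundE (Z := fun c => c ∈ cells e.2.2.2) t).1 _ N 0 0 0 _ _ hX2 (fun c hc => lsub hM hc) (fun c hc => lsub hD hc)
    hsp hF (by
      intro i hi c hc
      interval_cases i
      · exact lsub h0s (hz0 c hc)
      · exact lsub h1s (hz1 c hc)) 0 (cells M0) U R h2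
    ⟨fun c hc hz => h1 c hc (hz1 c hz), fun a d hd g1 g2 g3 => h0 a d hd g1 fun l hl => hz0 _ (g3 l hl)⟩ hR
    (by rw [Finset.union_self]; exact hdis)
  rwa [Finset.union_self] at this

theorem AC.win {XB M0 : ℕ} (hB : Base XB M0) {l : List Ent} (hl : AC XB M0 l) : ∃ n, ∀ e ∈ l, ∀ {U R : Finset Cell},
    (∀ a d : Cell, IsDir d → Avo (cells M0) a d → cnt U a d ≤ 2) → (∀ c ∈ U, c ∉ cells e.2.2.1) →
    (∀ a d : Cell, IsDir d → Avo (cells M0) a d → (∀ l : ℕ, l < 5 → a + (l : ℤ) • d ∈ cells e.2.1) → cnt U a d ≤ 1) →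
    R ⊆ cells e.1 ∪ U → Disjoint R (cells M0) → W n (cells M0) R := by
  induction l with
  | nil => exact ⟨0, fun e he => absurd he (by simp)⟩
  | cons x l ih =>
    obtain ⟨n, hn⟩ := ih fun x hx => hl x (List.mem_cons_of_mem _ hx)
    obtain ⟨n', hn'⟩ := OKE.win hB (hl x List.mem_cons_self)
    refine ⟨max n n', fun e he {U R} h2 h1 h0 hR hdis => ?_⟩
    rcases List.mem_cons.1 he with rfl | he
    · exact (hn' h2 h1 h0 hR hdis).le (le_max_right _ _)
    · exact (hn e he h2 h1 h0 hR hdis).le (le_max_left _ _)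

theorem msk_dgG {Y Z n : ℕ} (h5 : ∀ n, dg Y n ≤ 5) (hZ : D01 Z) : dg (msk Y Z) n = if dg Z n = 1 then dg Y n else 0 := by
  change dg (Y &&& (7 * Z)) n = _
  rw [dg_land, dg_kmul hZ 7 (by norm_num)]
  have h5 := h5 n
  rcases hZ n with h | h
  · rw [h]; simp
  · rw [h, if_pos rfl]
    generalize dg Y n = v at *
    interval_cases v <;> decide

/-- Cells of the windows inside the mask which contain a free cell `s` of the board. -/
theorem cel11g {X Z s : ℕ} {A : Finset Cell} (hX : Rep X A ∅) (hZ : D01 Z) (hs : s < 1024) (hsA : cl s ∉ A) {a d : Cell}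
    (hd : IsDir d) (hA : Avo A a d) (hz : ∀ l : ℕ, l < 5 → a + (l : ℤ) • d ∈ cells Z) {l0 : ℕ} (hl0 : l0 < 5)
    (hls : a + (l0 : ℤ) • d = cl s) {k : ℕ} (hk : k < 5) :
    a + (k : ℤ) • d ∈ cells (cel (msk (Nat.lor X (bit s)) Z) c11) := by
  have hdg : ∀ n, dg (Nat.lor X (bit s)) n = if n = s then 5 else dg X n := by
    intro n
    change dg (X ||| bit s) n = _
    rw [dg_lor, dg_bit]
    by_cases h : n = s
    · subst h
      rw [hX.dig _ hs, if_neg hsA, if_neg (by simp), if_pos rfl, if_pos rfl]; rfl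
    · rw [if_neg h, if_neg h]; simp
  have h5 : ∀ n, dg (Nat.lor X (bit s)) n ≤ 5 := by
    intro n
    rw [hdg]
    have := hX.le5 n
    split_ifs <;> omega
  have h5' : ∀ n, dg (msk (Nat.lor X (bit s)) Z) n ≤ 5 := by
    intro n
    rw [msk_dgG h5 hZ]
    have := h5 n
    split_ifs <;> omega
  have hin : ∀ k : ℕ, k < 5 → Inb (a + (k : ℤ) • d) := fun k hk => (mem_cells.1 (hz k hk)).1
  have g : ∀ k : ℕ, k < 5 → dg (msk (Nat.lor X (bit s)) Z) (ix (a + (k : ℤ) • d)) = 4 + if a + (k : ℤ) • d ∈ ({cl s} : Finset Cell) then 1 else 0 := by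
    intro k hk
    obtain ⟨h1, h2⟩ := mem_cells.1 (hz k hk)
    rw [hZ.tb, decide_eq_true_eq] at h2
    rw [msk_dgG h5 hZ, if_pos h2, hdg]
    by_cases h : a + (k : ℤ) • d = cl s
    · rw [h, ix_cl, if_pos rfl, if_pos (Finset.mem_singleton_self _)]
    · rw [if_neg (by intro h3; apply h; rw [← cl_ix h1, h3]), if_neg (by simpa using h), hX.digc h1 (hA k hk),
        if_neg (by simp)]
  obtain ⟨δ, e, hδ, he, -, hsum, hidx⟩ := win_sumG h5' hd hin g
  have hc : 1 ≤ cnt {cl s} a d := by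
    unfold cnt
    rw [Nat.succ_le_iff, Finset.card_pos]
    exact ⟨l0, by rw [Finset.mem_filter, Finset.mem_range]; exact ⟨hl0, by rw [hls]; exact Finset.mem_singleton_self _⟩⟩
  rw [mem_cells, c11_eq]
  refine ⟨hin k hk, ?_⟩
  obtain ⟨k', hk', hke⟩ := hidx k hk
  exact cel_spec h5' (by norm_num) (ix_lt (hin k hk)) hδ (dr_pos h5' (by norm_num) hk' he (by omega) hke)

/-- Groups `(s, entries with D = {s})`. -/
abbrev Grp := ℕ × List Ent

def AG (XB M0 : ℕ) (gl : List Grp) : Prop := ∀ g ∈ gl, AC XB M0 g.2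

theorem AG.nil {XB M0 : ℕ} : AG XB M0 [] := fun e he => absurd he (by simp)

theorem AG.cons {XB M0 : ℕ} {g : Grp} {l : List Grp} (h : AC XB M0 g.2) (hl : AG XB M0 l) : AG XB M0 (g :: l) := by
  intro x hx
  rcases List.mem_cons.1 hx with rfl | hx
  · exact h
  · exact hl x hx

theorem AG.win {XB M0 : ℕ} (hB : Base XB M0) {gl : List Grp} (hl : AG XB M0 gl) : ∃ n, ∀ g ∈ gl, ∀ e ∈ g.2, ∀ {U R : Finset Cell},
    (∀ a d : Cell, IsDir d → Avo (cells M0) a d → cnt U a d ≤ 2) → (∀ c ∈ U, c ∉ cells e.2.2.1) →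
    (∀ a d : Cell, IsDir d → Avo (cells M0) a d → (∀ l : ℕ, l < 5 → a + (l : ℤ) • d ∈ cells e.2.1) → cnt U a d ≤ 1) →
    R ⊆ cells e.1 ∪ U → Disjoint R (cells M0) → W n (cells M0) R := by
  induction gl with
  | nil => exact ⟨0, fun e he => absurd he (by simp)⟩
  | cons x l ih =>
    obtain ⟨n, hn⟩ := ih fun x hx => hl x (List.mem_cons_of_mem _ hx)
    obtain ⟨n', hn'⟩ := AC.win hB (hl x List.mem_cons_self)
    refine ⟨max n n', fun g hg e he {U R} h2 h1 h0 hR hdis => ?_⟩
    rcases List.mem_cons.1 hg with rfl | hg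
    · exact (hn' e he h2 h1 h0 hR hdis).le (le_max_right _ _)
    · exact (hn g hg e he h2 h1 h0 hR hdis).le (le_max_left _ _)

def andz (l : List Ent) : ℕ := @List.rec Ent (fun _ => ℕ) ones (fun e _ r => Nat.land e.2.2.1 r) l

theorem andz_get {l : List Ent} {t : Cell} (hi : Inb t) (h : t ∉ cells (andz l)) : ∃ e ∈ l, t ∉ cells e.2.2.1 := by
  induction l with
  | nil => exact absurd (mem_cells.2 ⟨hi, ones_tb (ix_lt hi)⟩) h
  | cons e l ih =>
    by_cases he : t ∈ cells e.2.2.1
    · by_cases hl : t ∈ cells (andz l)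
      · exact absurd (mem_land.2 ⟨he, hl⟩) h
      · obtain ⟨e', h1, h2⟩ := ih hl
        exact ⟨e', List.mem_cons_of_mem _ h1, h2⟩
    · exact ⟨e, List.mem_cons_self, he⟩

/-- The entries `l` have the set `{s}` and zone 1 off `MA`. -/
def alle (s MA : ℕ) (l : List Ent) : Bool :=
  @List.rec Ent (fun _ => Bool) true (fun e _ r => Bool.and (Bool.and (Nat.beq e.1 (bit s)) (Nat.beq (Nat.land e.2.2.1 MA) 0)) r) l

theorem alle_get {s MA : ℕ} {l : List Ent} (h : alle s MA l = true) : ∀ e ∈ l, e.1 = bit s ∧ Nat.beq (Nat.land e.2.2.1 MA) 0 = true := by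
  induction l with
  | nil => exact fun e he => absurd he (by simp)
  | cons x l ih =>
    obtain ⟨h1, h2⟩ := andb (a := Bool.and (Nat.beq x.1 (bit s)) (Nat.beq (Nat.land x.2.2.1 MA) 0)) h
    obtain ⟨h3, h4⟩ := andb h1
    intro e he
    rcases List.mem_cons.1 he with rfl | he
    · exact ⟨Nat.eq_of_beq_eq_true h3, h4⟩
    · exact ih h2 e he

/-- The cells which share a window inside the zone 0 of the null certificate with `s`. -/
def Wz (XB : ℕ) (n : Ent) (s : ℕ) : ℕ :=
  @Bool.rec (fun _ => ℕ) ones (cel (msk (Nat.lor XB (bit s)) n.2.1) c11) (Nat.beq (Nat.land n.2.2.1 (bit s)) 0)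

def gk (XB : ℕ) (n : Ent) (BAD MA : ℕ) (g : Grp) : Bool :=
  Bool.and (Bool.and (Bool.and (Nat.ble 1 g.1) (Nat.ble g.1 1023)) (alle g.1 MA g.2))
    (Nat.beq (Nat.lor (Nat.land (andz g.2) (Wz XB n g.1)) (Nat.lor BAD (bit g.1))) (Nat.lor BAD (bit g.1)))

def gks (XB : ℕ) (n : Ent) (BAD MA : ℕ) (l : List Grp) : Bool :=
  @List.rec Grp (fun _ => Bool) true (fun g _ r => Bool.and (gk XB n BAD MA g) r) l

def gor (l : List Grp) : ℕ := @List.rec Grp (fun _ => ℕ) (nat_lit 0) (fun g _ r => Nat.lor (bit g.1) r) l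

theorem gks_get {XB : ℕ} {n : Ent} {BAD MA : ℕ} {l : List Grp} (h : gks XB n BAD MA l = true) : ∀ g ∈ l, gk XB n BAD MA g = true := by
  induction l with
  | nil => exact fun e he => absurd he (by simp)
  | cons x l ih =>
    obtain ⟨h1, h2⟩ := andb (a := gk XB n BAD MA x) h
    intro e he
    rcases List.mem_cons.1 he with rfl | he
    · exact h1
    · exact ih h2 e he

theorem gor_get {XB : ℕ} {A B : Finset Cell} (hX : Rep XB A B) {n : Ent} {BAD MA : ℕ} {l : List Grp} (h : gks XB n BAD MA l = true)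
    {s : Cell} (hs : s ∈ cells (gor l)) : ∃ g ∈ l, s = cl g.1 ∧ g.1 < 1024 := by
  induction l with
  | nil =>
    have := (mem_cells.1 hs).2
    change (0 : ℕ).testBit _ = true at this
    rw [Nat.zero_testBit] at this
    exact absurd this (by simp)
  | cons x l ih =>
    obtain ⟨h1, h2⟩ := andb (a := gk XB n BAD MA x) h
    obtain ⟨h3, -⟩ := andb (a := Bool.and (Bool.and (Nat.ble 1 x.1) (Nat.ble x.1 1023)) (alle x.1 MA x.2)) h1
    obtain ⟨h4, -⟩ := andb h3
    have h4 := Nat.le_of_ble_eq_true (andb h4).2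
    have h5 : x.1 < 1024 := by omega
    rcases mem_lor.1 hs with hs | hs
    · exact ⟨x, List.mem_cons_self, (mem_bit h5).1 hs, h5⟩
    · obtain ⟨g, hg, h6⟩ := ih h2 hs
      exact ⟨g, List.mem_cons_of_mem _ hg, h6⟩

/-- All the conditions. -/
def nsk (XB : ℕ) (n : Ent) (BAD MA : ℕ) (l : List Grp) : Bool :=
  Bool.and (Bool.and (gks XB n BAD MA l) (Nat.beq (Nat.lor (Nat.land n.2.1 (emp XB)) (gor l)) (gor l)))
    (Bool.and (Bool.and (Nat.beq (Nat.lor n.2.2.1 n.2.1) n.2.1) (Nat.beq (Nat.land n.2.1 MA) 0))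
      (Bool.and (Nat.beq (Nat.lor (Nat.land n.2.2.1 (emp XB)) BAD) BAD) (Bool.and (Nat.beq (Nat.lor n.2.1 ones) ones) (Nat.beq (Nat.land BAD (bit 0)) 0))))

theorem cnt_two (x y : Cell) (a d : Cell) (hd : IsDir d) : cnt {x, y} a d ≤ 2 := by
  have g1 := cnt_insert hd {y} x a
  have g2 := cnt_insert hd ∅ y a
  have g3 : (insert y ∅ : Finset Cell) = {y} := rfl
  rw [g3, Pool.Agent.H94.Five.cnt_empty] at g2
  omega

theorem cnt_single (y : Cell) (a d : Cell) (hd : IsDir d) : cnt {y} a d ≤ 1 := by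
  have g2 := cnt_insert hd ∅ y a
  have g3 : (insert y ∅ : Finset Cell) = {y} := rfl
  rw [g3, Pool.Agent.H94.Five.cnt_empty] at g2
  omega

theorem cnt_notin {x y : Cell} {a d : Cell} (h1 : ∀ l : ℕ, l < 5 → a + (l : ℤ) • d ≠ x) (hd : IsDir d) : cnt {x, y} a d ≤ 1 := by
  rw [cnt_insert_of_not h1]
  exact cnt_single y a d hd

/-- **Third stone against two stones of Second which share no window.** -/
theorem ns_main {XB M0 : ℕ} (hB : Base XB M0) {n : Ent} (hn : OKE XB M0 n) {gl : List Grp} (hg : AG XB M0 gl) {BAD MA : ℕ}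
    (hk : nsk XB n BAD MA gl = true) : ∃ N, ∀ a t : Cell, (Inb a → a ∈ cells MA) → a ≠ t → a ∉ cells M0 → t ∉ cells M0 →
      t ∉ cells BAD → (∀ x d : Cell, IsDir d → Avo (cells M0) x d → cnt {a, t} x d ≤ 1) → WS N (cells M0) {a, t} := by
  obtain ⟨h1, h2⟩ := andb (a := Bool.and (gks XB n BAD MA gl) (Nat.beq (Nat.lor (Nat.land n.2.1 (emp XB)) (gor gl)) (gor gl))) hk
  obtain ⟨hgk, hcov⟩ := andb h1
  obtain ⟨h3, h4⟩ := andb (a := Bool.and (Nat.beq (Nat.lor n.2.2.1 n.2.1) n.2.1) (Nat.beq (Nat.land n.2.1 MA) 0)) h2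
  obtain ⟨h10, h0M⟩ := andb h3
  obtain ⟨h1B, hd1⟩ := andb h4
  obtain ⟨hd0, hB0⟩ := andb hd1
  obtain ⟨N1, hN1⟩ := OKE.win hB hn
  obtain ⟨N2, hN2⟩ := hg.win hB
  refine ⟨max N1 N2, fun a t ha hat haA htA htB hsh s hsA hsB => ?_⟩
  have hs : s ≠ a ∧ s ≠ t := by simpa using hsB
  have h3s : ∀ x d : Cell, IsDir d → Avo (cells M0) x d → cnt (insert s {a, t}) x d ≤ 2 := by
    intro x d hd hA
    have := cnt_insert hd {a, t} s x
    have := hsh x d hd hA
    omega
  have hdis : Disjoint (insert s {a, t}) (cells M0) := by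
    rw [Finset.disjoint_insert_left, Finset.disjoint_insert_left, Finset.disjoint_singleton_left]
    exact ⟨hsA, haA, htA⟩
  refine ⟨?_, ?_⟩
  · intro h5
    obtain ⟨x, d, hd, -, hc⟩ := cnt_five h5
    have := cnt_insert hd {a, t} s x
    have := cnt_two a t x d hd
    omega
  have ha0 : a ∉ cells n.2.1 := fun h => by
    have hi := (mem_cells.1 h).1
    exact land0 h0M h (ha hi)
  have ht1 : t ∉ cells n.2.2.1 := fun h => htB (lsub h1B (mem_land.2 ⟨h, mem_emp hB.1 (mem_cells.1 h).1 htA (by simp)⟩))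
  have ha1 : a ∉ cells n.2.2.1 := fun h => ha0 (lsub h10 h)
  -- the null certificate
  have hnull : s ∉ cells n.2.2.1 → (∀ x d : Cell, IsDir d → Avo (cells M0) x d → (∀ l : ℕ, l < 5 → x + (l : ℤ) • d ∈ cells n.2.1) →
      cnt {s, t} x d ≤ 1) → W (max N1 N2) (cells M0) (insert s {a, t}) := by
    intro hs1 hst
    refine (hN1 (U := insert s {a, t}) h3s ?_ ?_ Finset.subset_union_right hdis).le (le_max_left _ _)
    · intro c hc
      rcases Finset.mem_insert.1 hc with rfl | hc
      · exact hs1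
      · rcases Finset.mem_insert.1 hc with rfl | hc
        · exact ha1
        · rw [Finset.mem_singleton] at hc; rw [hc]; exact ht1
    · intro x d hd hA hz
      have hna : ∀ l : ℕ, l < 5 → x + (l : ℤ) • d ≠ a := by
        intro l hl he
        apply ha0
        rw [← he]
        exact hz l hl
      rw [show insert s ({a, t} : Finset Cell) = insert a {s, t} from Finset.insert_comm _ _ _, cnt_insert_of_not hna]
      exact hst x d hd hA hz
  by_cases hs0 : s ∈ cells n.2.1
  · have hsi := (mem_cells.1 hs0).1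
    obtain ⟨g, hgm, rfl, hg1⟩ := gor_get hB.1 hgk (lsub hcov (mem_land.2 ⟨hs0, mem_emp hB.1 hsi hsA (by simp)⟩))
    have h5 := gks_get hgk g hgm
    obtain ⟨h6, h7⟩ := andb (a := Bool.and (Bool.and (Nat.ble 1 g.1) (Nat.ble g.1 1023)) (alle g.1 MA g.2)) h5
    obtain ⟨hf, hal⟩ := andb h6
    by_cases hz : ∃ e ∈ g.2, t ∉ cells e.2.2.1
    · obtain ⟨e, he, hte⟩ := hz
      obtain ⟨hD, hMe⟩ := alle_get hal e he
      refine (hN2 g hgm e he (U := {a, t}) (fun x d hd _ => cnt_two a t x d hd) ?_ (fun x d hd hA _ => hsh x d hd hA) ?_ hdis).le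
        (le_max_right _ _)
      · intro c hc
        rcases Finset.mem_insert.1 hc with rfl | hc
        · exact fun h => land0 hMe h (ha (mem_cells.1 h).1)
        · rw [Finset.mem_singleton] at hc; rw [hc]; exact hte
      · intro c hc
        rcases Finset.mem_insert.1 hc with rfl | hc
        · exact Finset.mem_union_left _ (by rw [hD, mem_bit hg1])
        · exact Finset.mem_union_right _ hc
    · -- all the entries of the group contain `t` in zone 1
      have hti : t ∉ cells (Nat.land (andz g.2) (Wz XB n g.1)) := by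
        intro hc
        rcases mem_lor.1 (lsub h7 hc) with h | h
        · exact htB h
        · exact hs.2 ((mem_bit hg1).1 h).symm
      have hnz : t ∉ cells (Wz XB n g.1) ∨ ¬ Inb t := by
        by_cases hi : Inb t
        · left
          intro hc
          apply hti
          refine mem_land.2 ⟨?_, hc⟩
          by_contra h
          exact hz (andz_get hi h)
        · exact Or.inr hi
      have key : ¬ Inb t → Wz XB n g.1 = ones → False := by
        intro hi hw
        have hnil : g.2 = [] := by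
          by_contra hne
          obtain ⟨e, he⟩ := List.exists_mem_of_ne_nil _ hne
          exact hz ⟨e, he, fun h => hi (mem_cells.1 h).1⟩
        have h8 : cl 0 ∈ cells (Nat.land (andz g.2) (Wz XB n g.1)) := by
          have h9 : cl 0 ∈ cells ones := mem_cells.2 ⟨inb_cl (by norm_num), by rw [ix_cl]; exact ones_tb (by norm_num)⟩
          rw [hnil, hw]
          exact mem_land.2 ⟨h9, h9⟩
        rcases mem_lor.1 (lsub h7 h8) with h | h
        · exact land0 hB0 h ((mem_bit (by norm_num)).2 rfl)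
        · have h9 := (mem_bit hg1).1 h
          have h10 := cl_inj h9
          have h11 := Nat.le_of_ble_eq_true (andb hf).1
          omega
      cases hb : Nat.beq (Nat.land n.2.2.1 (bit g.1)) 0 with
      | false =>
        have hw : Wz XB n g.1 = ones := by unfold Wz; rw [hb]
        exfalso
        rcases hnz with h | h
        · rw [hw] at h
          have hti' : ¬ Inb t := fun hi => h (mem_cells.2 ⟨hi, ones_tb (ix_lt hi)⟩)
          exact key hti' hw
        · exact key h hw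
      | true =>
        have hw : Wz XB n g.1 = cel (msk (Nat.lor XB (bit g.1)) n.2.1) c11 := by unfold Wz; rw [hb]
        apply hnull
        · intro hc
          exact land0 hb hc ((mem_bit hg1).2 rfl)
        · intro x d hd hA hzz
          by_cases hx : ∃ l : ℕ, l < 5 ∧ x + (l : ℤ) • d = cl g.1
          · obtain ⟨l, hl, hls⟩ := hx
            have hi : ∀ l : ℕ, l < 5 → x + (l : ℤ) • d ∈ cells (Wz XB n g.1) := by
              intro l' hl'
              rw [hw]
              exact cel11g hB.1 (D01.of hd0) hg1 hsA hd hA hzz hl hls hl'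
            have ht' : ∀ l : ℕ, l < 5 → x + (l : ℤ) • d ≠ t := by
              intro l' hl' he
              rcases hnz with h | h
              · exact h (he ▸ hi l' hl')
              · exact h (he ▸ (mem_cells.1 (hi l' hl')).1)
            rw [Finset.pair_comm]
            exact cnt_notin ht' hd
          · push Not at hx
            exact cnt_notin hx hd
  · apply hnull (fun h => hs0 (lsub h10 h))
    intro x d hd hA hz
    exact cnt_notin (fun l hl he => hs0 (he ▸ hz l hl)) hd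

end Pool.Agent.H94.Five.M
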