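import Pool.Agent.H94.Five.Msk

set_option autoImplicit false
set_option linter.all false
set_option maxRecDepth 10000
set_option exponentiation.threshold 20000

/-! Positions with Second to move, decided by a family of certificates at scope 2 with unknown stones. -/

namespace Pool.Agent.H94.Five.M

open Pool.Agent.H79.Five Pool.Agent.H10.Five

/-- `(D, z0, z1, zs)` -/
abbrev Ent := ℕ × ℕ × ℕ × ℕ

/-- Certificate at scope 2 with zones inside `z0`, `z1` and support inside `zs`. -/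
def C3 (X z0 z1 zs : ℕ) : Prop :=
  ∃ t N, F t false X 2 0 0 0 = N + 1 ∧ (∀ c, zn (N >>> 64) 0 c → c ∈ cells z0) ∧
    (∀ c, zn (N >>> 64) 1 c → c ∈ cells z1) ∧ ∀ c ∈ cells (supN t), c ∈ cells zs

noncomputable def z3 (t : T) (X z0 z1 zs : ℕ) : ℕ :=
  bnd (F t false X 2 0 0 0) fun p =>
    grd (Nat.beq (Nat.lor (Nat.land (Nat.shiftRight p 64) (mask 1)) z0) z0)
      (grd (Nat.beq (Nat.lor (Nat.shiftRight p 6208) z1) z1) (grd (Nat.beq (Nat.lor (supN t) zs) zs) 1))

theorem C3.of {X z0 z1 zs : ℕ} (t : T) (h : z3 t X z0 z1 zs = 1) : C3 X z0 z1 zs := by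
  obtain ⟨p, hp, h1⟩ := bnd_eq (N := 0) h
  obtain ⟨h2, h3⟩ := grd_eq (N := 0) h1
  obtain ⟨h4, h5⟩ := grd_eq (N := 0) h3
  obtain ⟨h6, -⟩ := grd_eq (N := 0) h5
  have h2 := Nat.eq_of_beq_eq_true h2
  have h4 := Nat.eq_of_beq_eq_true h4
  change ((p >>> 64) &&& mask 1) ||| z0 = z0 at h2
  change (p >>> 6208) ||| z1 = z1 at h4
  refine ⟨t, p, hp, fun c hc => ?_, fun c hc => ?_, fun c hc => lsub h6 hc⟩
  · rw [mem_cells]
    refine ⟨hc.1, ?_⟩
    have h5 := hc.2
    rw [Nat.mul_zero, Nat.zero_add] at h5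
    have h6 : (mask 1).testBit (6 * ix c) = true := by
      change (1 <<< (6144 * 1) - 1).testBit _ = true
      rw [Nat.one_shiftLeft, Nat.testBit_two_pow_sub_one]
      have := ix_lt hc.1
      simp; omega
    rw [← h2, Nat.testBit_or, Nat.testBit_and, h5, h6]; rfl
  · rw [mem_cells]
    refine ⟨hc.1, ?_⟩
    have h5 := hc.2
    rw [Nat.testBit_shiftRight] at h5
    rw [← h4, Nat.testBit_or, Nat.testBit_shiftRight,
      show 6208 + 6 * ix c = 64 + (6144 * 1 + 6 * ix c) by ring, h5]; rfl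

/-- Good masks of the entry `e` over the base `XB` with First's stones `M0`. -/
def wf (XB M0 : ℕ) (e : Ent) : Bool :=
  Bool.and (Bool.and (Bool.and (Nat.beq (Nat.lor e.2.1 ones) ones) (Nat.beq (Nat.lor M0 e.2.2.2) e.2.2.2))
    (Bool.and (Nat.beq (Nat.lor e.1 e.2.2.2) e.2.2.2) (Bool.and (dOk XB e.1) (Nat.beq (Nat.lor e.1 ones) ones))))
    (Bool.and (Nat.beq (Nat.lor e.2.1 e.2.2.2) e.2.2.2) (Nat.beq (Nat.lor e.2.2.1 e.2.2.2) e.2.2.2))

/-- The entry is a certificate. -/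
def OKE (XB M0 : ℕ) (e : Ent) : Prop := wf XB M0 e = true ∧ C3 (Nat.lor XB e.1) e.2.1 e.2.2.1 e.2.2.2

theorem OKE.of {XB M0 X D z0 z1 zs : ℕ} (h : C3 X z0 z1 zs) (hw : Bool.and (Nat.beq (Nat.lor XB D) X) (wf XB M0 (D, z0, z1, zs)) = true) :
    OKE XB M0 (D, z0, z1, zs) := by
  obtain ⟨h1, h2⟩ := andb hw
  have h1 := Nat.eq_of_beq_eq_true h1
  subst h1
  exact ⟨h2, h⟩

def AC (XB M0 : ℕ) (l : List Ent) : Prop := ∀ e ∈ l, OKE XB M0 e

theorem AC.nil {XB M0 : ℕ} : AC XB M0 [] := fun e he => absurd he (by simp)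

theorem AC.cons {XB M0 : ℕ} {e : Ent} {l : List Ent} (h : OKE XB M0 e) (hl : AC XB M0 l) : AC XB M0 (e :: l) := by
  intro x hx
  rcases List.mem_cons.1 hx with rfl | hx
  · exact h
  · exact hl x hx

theorem AC.append {XB M0 : ℕ} {l l' : List Ent} (h : AC XB M0 l) (hl : AC XB M0 l') : AC XB M0 (l ++ l') := by
  intro x hx
  rcases List.mem_append.1 hx with hx | hx
  · exact h x hx
  · exact hl x hx

/-- The base. -/
def Base (XB M0 : ℕ) : Prop := Rep XB (cells M0) ∅ ∧ Nat.beq (Nat.lor M0 ones) ones = true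

/-- The entry is usable at the position `X` with the plan `q`. -/
def us (X : ℕ) (q : ℕ) (e : Ent) : Bool :=
  Bool.and (Nat.beq (Nat.land (su X) e.2.2.1) 0) (Bool.and (Nat.beq (Nat.land q e.2.2.2) 0) (sf2 (msk X e.2.1)))

/-- What a usable entry gives. -/
theorem use {XB M0 : ℕ} (hB : Base XB M0) {e : Ent} (he : OKE XB M0 e) : ∃ n, ∀ {X : ℕ} {A U R : Finset Cell} {q : Q0},
    Rep X A U → (∀ c ∈ cells M0, c ∈ A) → lev q X = true → us X (am q) e = true → R ⊆ cells e.1 ∪ U → Disjoint R A →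
    W (n + dp q) A R := by
  obtain ⟨hw, t, N, hF, hz0, hz1, hsp⟩ := he
  obtain ⟨hw1, hw2⟩ := andb (a := Bool.and (Bool.and (Nat.beq (Nat.lor e.2.1 ones) ones) (Nat.beq (Nat.lor M0 e.2.2.2) e.2.2.2)) _) hw
  obtain ⟨hw3, hw4⟩ := andb (a := Bool.and (Nat.beq (Nat.lor e.2.1 ones) ones) (Nat.beq (Nat.lor M0 e.2.2.2) e.2.2.2)) hw1
  obtain ⟨hd0, hM⟩ := andb hw3
  obtain ⟨hD, hw5⟩ := andb hw4
  obtain ⟨hO, hD1⟩ := andb hw5
  obtain ⟨h0s, h1s⟩ := andb hw2
  refine ⟨ht t, fun {X A U R q} hX hA hq hu hR hdis => ?_⟩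
  obtain ⟨hu1, hu2⟩ := andb (a := Nat.beq (Nat.land (su X) e.2.2.1) 0) hu
  obtain ⟨hu2, hu3⟩ := andb (a := Nat.beq (Nat.land (am q) e.2.2.2) 0) hu2
  obtain ⟨hX2, -, -⟩ := hB.1.lor (D01.of hD1) hO
  rw [Finset.empty_union] at hX2
  have hEX : EX (fun c => c ∈ cells e.2.2.2) (dp q) A U :=
    lev_EX (dp q) hX hq le_rfl fun c hc => land0 hu2 hc
  have hUD : UD (N >>> 64) (cells M0) A U := by
    refine ⟨fun c hc hz => land0 hu1 (su_mem hX hc) (hz1 c hz), fun a d hd h1 h2 h3 => ?_⟩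
    exact sf2_spec hX (D01.of hd0) hu3 hd h2 fun l hl => hz0 _ (h3 l hl)
  have hAA : cells M0 ∪ A = A := Finset.union_eq_right.2 hA
  have := (soundE (Z := fun c => c ∈ cells e.2.2.2) t).1 _ N 0 0 0 _ _ hX2 (fun c hc => lsub hM hc) (fun c hc => lsub hD hc)
    hsp hF (by
      intro i hi c hc
      interval_cases i
      · exact lsub h0s (hz0 c hc)
      · exact lsub h1s (hz1 c hc)) (dp q) A U R hEX hUD hR (by rw [hAA]; exact hdis)
  rwa [hAA] at this

/-- Union of the sets of the usable entries. -/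
def covd (X q : ℕ) (l : List Ent) : ℕ :=
  @List.rec Ent (fun _ => ℕ) (nat_lit 0) (fun e _ r => @Bool.rec (fun _ => ℕ) r (Nat.lor e.1 r) (us X q e)) l

theorem covd_get {X q : ℕ} {l : List Ent} {c : Cell} (h : c ∈ cells (covd X q l)) : ∃ e ∈ l, us X q e = true ∧ c ∈ cells e.1 := by
  induction l with
  | nil =>
    have := (mem_cells.1 h).2
    change (0 : ℕ).testBit _ = true at this
    rw [Nat.zero_testBit] at this
    exact absurd this (by simp)
  | cons e l ih =>
    change c ∈ cells (@Bool.rec (fun _ => ℕ) (covd X q l) (Nat.lor e.1 (covd X q l)) (us X q e)) at h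
    cases hu : us X q e with
    | false =>
      rw [hu] at h
      obtain ⟨e', h1, h2⟩ := ih h
      exact ⟨e', List.mem_cons_of_mem _ h1, h2⟩
    | true =>
      rw [hu] at h
      rcases mem_lor.1 h with h | h
      · exact ⟨e, List.mem_cons_self, hu, h⟩
      · obtain ⟨e', h1, h2⟩ := ih h
        exact ⟨e', List.mem_cons_of_mem _ h1, h2⟩

/-- Uniform bound for the usable entries of a list. -/
theorem AC.exp {XB M0 : ℕ} (hB : Base XB M0) {l : List Ent} (hl : AC XB M0 l) {X : ℕ} {A U : Finset Cell} {q : Q0}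
    (hX : Rep X A U) (hA : ∀ c ∈ cells M0, c ∈ A) (hq : lev q X = true) :
    ∃ n, ∀ s, s ∈ cells (covd X (am q) l) → s ∉ A → W n A (insert s U) := by
  induction l with
  | nil =>
    refine ⟨0, fun s hs => ?_⟩
    have := (mem_cells.1 hs).2
    change (0 : ℕ).testBit _ = true at this
    rw [Nat.zero_testBit] at this
    exact absurd this (by simp)
  | cons e l ih =>
    obtain ⟨n, hn⟩ := ih fun x hx => hl x (List.mem_cons_of_mem _ hx)
    obtain ⟨n', hn'⟩ := use hB (hl e List.mem_cons_self)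
    refine ⟨max n (n' + dp q), fun s hs hsA => ?_⟩
    change s ∈ cells (@Bool.rec (fun _ => ℕ) (covd X (am q) l) (Nat.lor e.1 (covd X (am q) l)) (us X (am q) e)) at hs
    cases hu : us X (am q) e with
    | false =>
      rw [hu] at hs
      exact (hn s hs hsA).le (le_max_left _ _)
    | true =>
      rw [hu] at hs
      rcases mem_lor.1 hs with hs | hs
      · refine (hn' hX hA hq hu (Finset.insert_subset_iff.2 ⟨Finset.mem_union_left _ hs, Finset.subset_union_right⟩) ?_).le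
          (le_max_right _ _)
        rw [Finset.disjoint_insert_left]
        exact ⟨hsA, hX.dis.symm⟩
      · exact (hn s hs hsA).le (le_max_left _ _)

/-- Cells not covered by the null certificates. -/
def unc (X q : ℕ) (l : List Ent) : ℕ :=
  @List.rec Ent (fun _ => ℕ) ones
    (fun e _ r => @Bool.rec (fun _ => ℕ) r (Nat.land (Nat.lor e.2.2.1 (cel (msk X e.2.1) c11)) r) (us X q e)) l

/-- Some entry is usable. -/
def anyu (X q : ℕ) (l : List Ent) : Bool :=
  @List.rec Ent (fun _ => Bool) false (fun e _ r => @Bool.rec (fun _ => Bool) r true (us X q e)) l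

theorem dg01_lor {a b : ℕ} (ha : ∀ n, dg a n = 0 ∨ dg a n = 1) (hb : ∀ n, dg b n = 0 ∨ dg b n = 1) (n : ℕ) :
    dg (Nat.lor a b) n = 0 ∨ dg (Nat.lor a b) n = 1 := by
  change dg (a ||| b) n = 0 ∨ dg (a ||| b) n = 1
  rw [dg_lor]
  rcases ha n with h | h <;> rcases hb n with h' | h' <;> rw [h, h'] <;> decide

theorem dg01_fm (q : Q0) : ∀ n, dg (fm q) n = 0 ∨ dg (fm q) n = 1 := by
  induction q with
  | nil => exact fun n => Or.inl (dg_zero n)
  | cons s y sub rest h1 h2 =>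
    apply dg01_lor
    · intro n
      rw [dg_bit]
      split_ifs <;> simp
    · exact dg01_lor h1 h2

theorem use_null {XB M0 : ℕ} (hB : Base XB M0) {e : Ent} (he : OKE XB M0 e) : ∃ n, ∀ {X : ℕ} {A U : Finset Cell} {q : Q0} {s : Cell},
    Rep X A U → (∀ c ∈ cells M0, c ∈ A) → lev q X = true → us X (am q) e = true → dOk X (fm q) = true →
    s ∉ A → s ∉ U → s ∉ cells (am q) → s ∉ cells (cel (Nat.lor X (fm q)) c10) → s ∉ cells e.2.2.1 →
    s ∉ cells (cel (msk X e.2.1) c11) → W (n + dp q) A (insert s U) := by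
  obtain ⟨hw, t, N, hF, hz0, hz1, hsp⟩ := he
  obtain ⟨hw1, hw2⟩ := andb (a := Bool.and (Bool.and (Nat.beq (Nat.lor e.2.1 ones) ones) (Nat.beq (Nat.lor M0 e.2.2.2) e.2.2.2)) _) hw
  obtain ⟨hw3, hw4⟩ := andb (a := Bool.and (Nat.beq (Nat.lor e.2.1 ones) ones) (Nat.beq (Nat.lor M0 e.2.2.2) e.2.2.2)) hw1
  obtain ⟨hd0, hM⟩ := andb hw3
  obtain ⟨hD, hw5⟩ := andb hw4
  obtain ⟨hO, hD1⟩ := andb hw5
  obtain ⟨h0s, h1s⟩ := andb hw2
  refine ⟨ht t, fun {X A U q s} hX hA hq hu hf hsA hsU hsq hs10 hs1 hs11 => ?_⟩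
  obtain ⟨hu1, hu2⟩ := andb (a := Nat.beq (Nat.land (su X) e.2.2.1) 0) hu
  obtain ⟨hu2, hu3⟩ := andb (a := Nat.beq (Nat.land (am q) e.2.2.2) 0) hu2
  obtain ⟨hX2, -, -⟩ := hB.1.lor (D01.of hD1) hO
  rw [Finset.empty_union] at hX2
  obtain ⟨hXf, -, -⟩ := hX.lor (dg01_fm q) hf
  have hEX : EX (fun c => c ∈ cells e.2.2.2) (dp q) A (insert s U) := by
    refine lev_EXi (C := U ∪ cells (fm q)) (dp q) hX hq le_rfl (fun c hc => land0 hu2 hc) hsA hsU hsq Finset.subset_union_left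
      (fun c hc => Finset.mem_union_right _ hc) ?_
    intro a d hd hE l hl hls
    by_contra hc
    apply hs10
    rw [← hls]
    exact cel10 hXf hd hE (by omega) hl
  have hUD : UD (N >>> 64) (cells M0) A (insert s U) := by
    refine ⟨fun c hc hz => ?_, fun a d hd h1 h2 h3 => ?_⟩
    · rcases Finset.mem_insert.1 hc with rfl | hc
      · exact hs1 (hz1 c hz)
      · exact land0 hu1 (su_mem hX hc) (hz1 c hz)
    · have h4 : cnt U a d ≤ 1 := sf2_spec hX (D01.of hd0) hu3 hd h2 fun l hl => hz0 _ (h3 l hl)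
      by_cases hw : ∃ l : ℕ, l < 5 ∧ a + (l : ℤ) • d = s
      · obtain ⟨l, hl, hls⟩ := hw
        have h5 : cnt U a d = 0 := by
          by_contra hc
          apply hs11
          rw [← hls]
          exact cel11 hX (D01.of hd0) hd h2 (fun l hl => hz0 _ (h3 l hl)) (by omega) hl
        have := cnt_insert hd U s a
        omega
      · push Not at hw
        rw [cnt_insert_of_not hw]
        exact h4
  have hAA : cells M0 ∪ A = A := Finset.union_eq_right.2 hA
  have := (soundE (Z := fun c => c ∈ cells e.2.2.2) t).1 _ N 0 0 0 _ _ hX2 (fun c hc => lsub hM hc) (fun c hc => lsub hD hc)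
    hsp hF (by
      intro i hi c hc
      interval_cases i
      · exact lsub h0s (hz0 c hc)
      · exact lsub h1s (hz1 c hc)) (dp q) A (insert s U) (insert s U) hEX hUD Finset.subset_union_right (by
        rw [hAA, Finset.disjoint_insert_left]
        exact ⟨hsA, hX.dis.symm⟩)
  rwa [hAA] at this

theorem AC.null {XB M0 : ℕ} (hB : Base XB M0) {l : List Ent} (hl : AC XB M0 l) {X : ℕ} {A U : Finset Cell} {q : Q0}
    (hX : Rep X A U) (hA : ∀ c ∈ cells M0, c ∈ A) (hq : lev q X = true) (hf : dOk X (fm q) = true) :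
    ∃ n, ∀ s, s ∉ A → s ∉ U → s ∉ cells (am q) → s ∉ cells (cel (Nat.lor X (fm q)) c10) →
      (anyu X (am q) l = true → ¬ Inb s → W n A (insert s U)) ∧ (Inb s → s ∉ cells (unc X (am q) l) → W n A (insert s U)) := by
  induction l with
  | nil =>
    refine ⟨0, fun s _ _ _ _ => ⟨fun h => absurd (show false = true from h) (by decide), fun hi hs => absurd (mem_cells.2 ⟨hi, ones_tb (ix_lt hi)⟩) hs⟩⟩
  | cons e l ih =>
    obtain ⟨n, hn⟩ := ih fun x hx => hl x (List.mem_cons_of_mem _ hx)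
    obtain ⟨n', hn'⟩ := use_null hB (hl e List.mem_cons_self)
    refine ⟨max n (n' + dp q), fun s hsA hsU hsq hs10 => ⟨fun h hi => ?_, fun hi hs => ?_⟩⟩
    · change @Bool.rec (fun _ => Bool) (anyu X (am q) l) true (us X (am q) e) = true at h
      cases hu : us X (am q) e with
      | false =>
        rw [hu] at h
        exact ((hn s hsA hsU hsq hs10).1 h hi).le (le_max_left _ _)
      | true =>
        exact (hn' hX hA hq hu hf hsA hsU hsq hs10 (fun h => hi (mem_cells.1 h).1) (fun h => hi (mem_cells.1 h).1)).le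
          (le_max_right _ _)
    · change s ∉ cells (@Bool.rec (fun _ => ℕ) (unc X (am q) l)
        (Nat.land (Nat.lor e.2.2.1 (cel (msk X e.2.1) c11)) (unc X (am q) l)) (us X (am q) e)) at hs
      cases hu : us X (am q) e with
      | false =>
        rw [hu] at hs
        exact ((hn s hsA hsU hsq hs10).2 hi hs).le (le_max_left _ _)
      | true =>
        rw [hu] at hs
        by_cases h2 : s ∈ cells (unc X (am q) l)
        · have h3 : s ∉ cells (Nat.lor e.2.2.1 (cel (msk X e.2.1) c11)) := fun h => hs (mem_land.2 ⟨h, h2⟩)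
          rw [mem_lor, not_or] at h3
          exact (hn' hX hA hq hu hf hsA hsU hsq hs10 h3.1 h3.2).le (le_max_right _ _)
        · exact ((hn s hsA hsU hsq hs10).2 hi h2).le (le_max_left _ _)

/-- First wins with Second to move. -/
def VW (X : ℕ) : Prop := ∀ A U, Rep X A U → ∃ n, WS n A U

/-- Special replies `s` of Second, with a plan for the position after `s`. -/
def nkk (nl : List Ent) (X : ℕ) (nk : List (ℕ × Q0)) : Bool :=
  @List.rec (ℕ × Q0) (fun _ => Bool) true
    (fun p _ r => Bool.and (Bool.and (fre X p.1) (Bool.and (lev p.2 (Nat.lor X (bit p.1)))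
      (anyu (Nat.lor X (bit p.1)) (am p.2) nl))) r) nk

def nko (nk : List (ℕ × Q0)) : ℕ :=
  @List.rec (ℕ × Q0) (fun _ => ℕ) (nat_lit 0) (fun p _ r => Nat.lor (bit p.1) r) nk

theorem anyu_get {X q : ℕ} {l : List Ent} (h : anyu X q l = true) : ∃ e ∈ l, us X q e = true := by
  induction l with
  | nil => exact absurd (show false = true from h) (by decide)
  | cons e l ih =>
    change @Bool.rec (fun _ => Bool) (anyu X q l) true (us X q e) = true at h
    cases hu : us X q e with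
    | false =>
      rw [hu] at h
      obtain ⟨e', h1, h2⟩ := ih h
      exact ⟨e', List.mem_cons_of_mem _ h1, h2⟩
    | true => exact ⟨e, List.mem_cons_self, hu⟩

theorem nkk_get {XB M0 : ℕ} (hB : Base XB M0) {nl : List Ent} (hn : AC XB M0 nl) {X : ℕ} {A U : Finset Cell}
    (hX : Rep X A U) (hA : ∀ c ∈ cells M0, c ∈ A) {nk : List (ℕ × Q0)} (h : nkk nl X nk = true) :
    ∃ n, ∀ s ∈ cells (nko nk), W n A (insert s U) := by
  induction nk with
  | nil =>
    refine ⟨0, fun s hs => ?_⟩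
    have := (mem_cells.1 hs).2
    change (0 : ℕ).testBit _ = true at this
    rw [Nat.zero_testBit] at this
    exact absurd this (by simp)
  | cons p l ih =>
    obtain ⟨h1, h2⟩ := andb (a := Bool.and (fre X p.1) (Bool.and (lev p.2 (Nat.lor X (bit p.1)))
      (anyu (Nat.lor X (bit p.1)) (am p.2) nl))) h
    obtain ⟨hf, h3⟩ := andb h1
    obtain ⟨hlev, h4⟩ := andb h3
    obtain ⟨n, hn'⟩ := ih h2
    obtain ⟨e, he, hu⟩ := anyu_get h4
    obtain ⟨n', hn''⟩ := use hB (hn e he)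
    obtain ⟨hm, hmi, hmA, hmB⟩ := fre_spec hX hf
    have hX' := hX.plB hf
    refine ⟨max n (n' + dp p.2), fun s hs => ?_⟩
    rcases mem_lor.1 hs with hs | hs
    · rw [mem_bit hm] at hs
      subst hs
      exact (hn'' hX' hA hlev hu Finset.subset_union_right hX'.dis.symm).le (le_max_right _ _)
    · exact (hn' s hs).le (le_max_left _ _)

/-- All the conditions on the position `X`. -/
def vk (M0 : ℕ) (nl fl : List Ent) (X : ℕ) (q : Q0) (nk : List (ℕ × Q0)) (ds : List (List ℕ × ℕ)) : Bool :=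
  Bool.and (Bool.and (Bool.and (Nat.beq (Nat.land X (Nat.mul (nat_lit 7) M0)) 0) (lev q X)) (Bool.and (dOk X (fm q)) (nkk nl X nk)))
    (Bool.and (Bool.and (anyu X (am q) nl) (dk X ds))
      (Nat.beq (Nat.lor (Nat.land (Nat.lor (Nat.lor (am q) (cel (Nat.lor X (fm q)) c10)) (unc X (am q) nl)) (emp X))
        (Nat.lor (Nat.lor (covd X (am q) fl) (nko nk)) (orl ds))) (Nat.lor (Nat.lor (covd X (am q) fl) (nko nk)) (orl ds))))

theorem lev_saf {q : Q0} {X : ℕ} (h : lev q X = true) : saf X = true := by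
  obtain ⟨h1, -⟩ := andb h
  exact (andb h1).1

/-- **Second to move**: the replies are covered by null certificates, by explicit certificates, by plans, or by facts. -/
theorem VW.of {XB M0 : ℕ} (hB : Base XB M0) {nl fl : List Ent} (hn : AC XB M0 nl) (hf : AC XB M0 fl) {X : ℕ} (q : Q0)
    (nk : List (ℕ × Q0)) (ds : List (List ℕ × ℕ)) (h : vk M0 nl fl X q nk ds = true) (hd : AS ds) : VW X := by
  obtain ⟨h1, h2⟩ := andb (a := Bool.and (Bool.and (Nat.beq (Nat.land X (Nat.mul (nat_lit 7) M0)) 0) (lev q X)) (Bool.and (dOk X (fm q)) (nkk nl X nk))) h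
  obtain ⟨h3, h4⟩ := andb (a := Bool.and (Nat.beq (Nat.land X (Nat.mul (nat_lit 7) M0)) 0) (lev q X)) h1
  obtain ⟨hM, hq⟩ := andb (a := Nat.beq (Nat.land X (Nat.mul (nat_lit 7) M0)) 0) h3
  obtain ⟨hfq, hnk⟩ := andb (a := dOk X (fm q)) h4
  obtain ⟨h5, h6⟩ := andb (a := Bool.and (anyu X (am q) nl) (dk X ds)) h2
  obtain ⟨hany, hdk⟩ := andb (a := anyu X (am q) nl) h5
  intro A U hX
  have hA : ∀ c ∈ cells M0, c ∈ A := by
    intro c hc
    obtain ⟨hi, hb⟩ := mem_cells.1 hc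
    have hD := D01.of hB.2
    have hM := Nat.eq_of_beq_eq_true hM
    change X &&& (7 * M0) = 0 at hM
    have h7 : dg (X &&& (7 * M0)) (ix c) = 0 := by rw [hM, dg_zero]
    rw [hD.tb, decide_eq_true_eq] at hb
    rw [dg_land, dg_kmul hD 7 (by norm_num), hb] at h7
    have h8 := hX.le5 (ix c)
    have h9 : dg X (ix c) = 0 := by
      revert h7
      generalize dg X (ix c) = v at *
      interval_cases v <;> decide
    have := hX.zero (ix_lt hi) h9
    rwa [cl_ix hi] at this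
  obtain ⟨n1, hn1⟩ := hf.exp hB hX hA hq
  obtain ⟨n2, hn2⟩ := hn.null hB hX hA hq hfq
  obtain ⟨n3, hn3⟩ := nkk_get hB hn hX hA hnk
  obtain ⟨n4, hn4⟩ := hd.get hX hdk
  refine ⟨max (max n1 n2) (max n3 n4), fun s hsA hsU => ⟨safe0 hX (lev_saf hq) hsA, ?_⟩⟩
  by_cases hH : s ∈ cells (Nat.lor (Nat.lor (am q) (cel (Nat.lor X (fm q)) c10)) (unc X (am q) nl))
  · have hi := (mem_cells.1 hH).1
    have h7 := lsub h6 (mem_land.2 ⟨hH, mem_emp hX hi hsA hsU⟩)
    rcases mem_lor.1 h7 with h7 | h7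
    · rcases mem_lor.1 h7 with h7 | h7
      · exact (hn1 s h7 hsA).le ((le_max_left _ _).trans (le_max_left _ _))
      · exact (hn3 s h7).le ((le_max_left _ _).trans (le_max_right _ _))
    · exact (hn4 s hi (mem_cells.1 h7).2).le ((le_max_right _ _).trans (le_max_right _ _))
  · rw [mem_lor, mem_lor, not_or, not_or] at hH
    have h8 := hn2 s hsA hsU hH.1.1 hH.1.2
    by_cases hi : Inb s
    · exact (h8.2 hi hH.2).le ((le_max_right _ _).trans (le_max_left _ _))
    · exact (h8.1 hany hi).le ((le_max_right _ _).trans (le_max_left _ _))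

/-- First plays `y`. -/
theorem VW.play {X : ℕ} (y X1 : ℕ) (h : Bool.and (fre X y) (Nat.beq (plA X y) X1) = true) (hv : VW X1) : S X := by
  obtain ⟨hf, h2⟩ := andb h
  have h2 := Nat.eq_of_beq_eq_true h2
  subst h2
  intro A B hX
  obtain ⟨hm, hmi, hmA, hmB⟩ := fre_spec hX hf
  obtain ⟨n, hn⟩ := hv _ _ (hX.plA hf)
  exact ⟨n + 1, cl y, hmA, hmB, Or.inr hn⟩

end Pool.Agent.H94.Five.M
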